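import Mathlib

namespace Pool.Agent.Q136.Kameko

open MvPolynomial

/-- `P_d = F_2[x_1, ..., x_d]`. -/
abbrev P (d : ℕ) := MvPolynomial (Fin d) (ZMod 2)

/-- The total Steenrod square `P_d → P_d[T]`: the algebra map with `x_i ↦ x_i + T x_i^2`. -/
noncomputable def totalSq (d : ℕ) : P d →ₐ[ZMod 2] Polynomial (P d) :=
  aeval fun i => Polynomial.C (X i) + Polynomial.X * Polynomial.C (X i ^ 2)

/-- `Sq^k` on `P_d`: the coefficient of `T^k` in the total square. -/
noncomputable def Sq (d k : ℕ) : P d →ₗ[ZMod 2] P d :=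
  ((Polynomial.lcoeff (P d) k).restrictScalars (ZMod 2)).comp (totalSq d).toLinearMap

/-- The substitution `x_j ↦ w(x_j) = ∑ i, w i j • x_i`. -/
noncomputable def act {d : ℕ} (w : Matrix (Fin d) (Fin d) (ZMod 2)) : P d →ₐ[ZMod 2] P d :=
  aeval fun j => ∑ i, C (w i j) * X i

/-- `H_n`: the degree `n` part of the graded dual of `P_d`, i.e. the linear functionals on `P_d`
which vanish on all monomials of degree different from `n`. -/
def H (d n : ℕ) : Submodule (ZMod 2) (Module.Dual (ZMod 2) (P d)) where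
  carrier := {h | ∀ t : Fin d →₀ ℕ, t.degree ≠ n → h (monomial t 1) = 0}
  add_mem' := by
    intro a b ha hb t ht
    simp [ha t ht, hb t ht]
  zero_mem' := by intro t _; simp
  smul_mem' := by
    intro c a ha t ht
    simp [ha t ht]

/-- `PH_n`: the functionals in `H_n` annihilated by every `Sq^k_*`, `k > 0`, where
`(Sq^k_* h)(f) = h (Sq^k f)`. -/
def PH (d n : ℕ) : Submodule (ZMod 2) (Module.Dual (ZMod 2) (P d)) where
  carrier := {h | h ∈ H d n ∧ ∀ k : ℕ, 0 < k → ∀ f : P d, h (Sq d k f) = 0}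
  add_mem' := by
    rintro a b ⟨ha, ha'⟩ ⟨hb, hb'⟩
    refine ⟨(H d n).add_mem ha hb, ?_⟩
    intro k hk f
    simp [ha' k hk f, hb' k hk f]
  zero_mem' := ⟨(H d n).zero_mem, by intro k _ f; simp⟩
  smul_mem' := by
    rintro c a ⟨ha, ha'⟩
    refine ⟨(H d n).smul_mem c ha, ?_⟩
    intro k hk f
    simp [ha' k hk f]

/-- Kameko's substitution on polynomials: `x^t ↦ x^((t-1)/2)` if all `t_i` are odd, else `0`. -/
noncomputable def kap (d : ℕ) : P d →ₗ[ZMod 2] P d :=
  (basisMonomials (Fin d) (ZMod 2)).constr (ZMod 2) fun t =>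
    if ∀ i, Odd (t i) then monomial (t.mapRange (fun a => (a - 1) / 2) rfl) 1 else 0

/-! ### Basic facts on the total square -/

theorem totalSq_X {d : ℕ} (i : Fin d) :
    totalSq d (X i) = Polynomial.C (X i) + Polynomial.X * Polynomial.C (X i ^ 2) := by
  simp [totalSq]

theorem Sq_apply {d k : ℕ} (f : P d) : Sq d k f = (totalSq d f).coeff k := rfl

theorem Sq_zero_eq {d : ℕ} (f : P d) : Sq d 0 f = f := by
  rw [Sq_apply]
  have h : ((Polynomial.constantCoeff (R := P d)).comp (totalSq d).toRingHom) = RingHom.id _ := by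
    apply MvPolynomial.ringHom_ext
    · intro r
      simp [totalSq]
    · intro i
      simp [totalSq]
  have := congrArg (fun g => g f) h
  simpa using this

theorem Sq_one_mul {d : ℕ} (f g : P d) :
    Sq d 1 (f * g) = Sq d 1 f * g + f * Sq d 1 g := by
  have hf : (totalSq d f).coeff 0 = f := Sq_zero_eq f
  have hg : (totalSq d g).coeff 0 = g := Sq_zero_eq g
  rw [Sq_apply, Sq_apply, Sq_apply, map_mul, Polynomial.mul_coeff_one, hf, hg]
  ring

theorem Sq_one_X {d : ℕ} (i : Fin d) : Sq d 1 (X i) = X i ^ 2 := by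
  rw [Sq_apply, totalSq_X]
  rw [Polynomial.coeff_add, Polynomial.coeff_C, Polynomial.coeff_X_mul]
  simp only [Polynomial.coeff_C_zero]
  simp

theorem Sq_one_sq {d : ℕ} (f : P d) : Sq d 1 (f ^ 2) = 0 := by
  rw [pow_two, Sq_one_mul, mul_comm f, ← two_mul]
  have : (2 : P d) = 0 := by
    have := CharP.cast_eq_zero (P d) 2
    exact_mod_cast this
  rw [this, zero_mul]

theorem coeff_sq_even {d : ℕ} (p : Polynomial (P d)) (k : ℕ) :
    (p ^ 2).coeff (2 * k) = (p.coeff k) ^ 2 := by
  rw [← Polynomial.map_frobenius_expand 2, Polynomial.coeff_map, mul_comm 2 k,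
    Polynomial.coeff_expand_mul (by norm_num)]
  rfl

theorem coeff_sq_odd {d : ℕ} (p : Polynomial (P d)) (k : ℕ) :
    (p ^ 2).coeff (2 * k + 1) = 0 := by
  rw [← Polynomial.map_frobenius_expand 2, Polynomial.coeff_map,
    Polynomial.coeff_expand (by norm_num)]
  rw [if_neg (by omega)]
  simp

theorem X_mul_Sq_sq {d k : ℕ} (hk : 0 < k) (a : Fin d) (f : P d) :
    X a * (Sq d k f) ^ 2 = Sq d (2 * k) (X a * f ^ 2) := by
  rw [Sq_apply, Sq_apply, map_mul, map_pow, totalSq_X, add_mul, Polynomial.coeff_add,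
    Polynomial.coeff_C_mul, coeff_sq_even, mul_assoc]
  obtain ⟨m, rfl⟩ : ∃ m, k = m + 1 := ⟨k - 1, by omega⟩
  have : 2 * (m + 1) = (2 * m + 1) + 1 := by ring
  rw [this, Polynomial.coeff_X_mul, Polynomial.coeff_C_mul, coeff_sq_odd]
  simp

/-! ### The explicit formula -/

theorem totalSq_monomial {d : ℕ} (t : Fin d →₀ ℕ) :
    totalSq d (monomial t 1) = ∑ m ∈ Fintype.piFinset (fun i => Finset.range (t i + 1)),
      Polynomial.X ^ (∑ i, m i) * Polynomial.C
        (monomial (t + Finsupp.equivFunOnFinite.symm m)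
          (∏ i, (((t i).choose (m i) : ℕ) : ZMod 2))) := by
  have h1 : (monomial t 1 : P d) = ∏ i, X i ^ t i := by
    rw [MvPolynomial.monomial_eq]
    simp [Finsupp.prod_fintype]
  rw [h1, map_prod]
  have h2 : ∀ i ∈ (Finset.univ : Finset (Fin d)), totalSq d (X i ^ t i) =
      ∑ m ∈ Finset.range (t i + 1), Polynomial.X ^ m *
        Polynomial.C (X i ^ (t i + m) * C (((t i).choose m : ℕ) : ZMod 2)) := by
    intro i _
    rw [map_pow, totalSq_X, add_comm, add_pow]
    refine Finset.sum_congr rfl fun m hm => ?_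
    have hm' : m ≤ t i := by simpa [Nat.lt_succ_iff] using hm
    have e : t i + m = 2 * m + (t i - m) := by omega
    rw [e, mul_pow, pow_add]
    simp only [map_mul, map_pow, map_natCast, pow_mul]
    ring
  rw [Finset.prod_congr rfl h2, Finset.prod_univ_sum]
  refine Finset.sum_congr rfl fun m _ => ?_
  rw [Finset.prod_mul_distrib, Finset.prod_pow_eq_pow_sum, ← map_prod, Finset.prod_mul_distrib,
    ← map_prod]
  congr 2
  rw [MvPolynomial.monomial_eq, mul_comm]
  congr 1
  rw [Finsupp.prod_fintype]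
  · simp
  · simp

theorem Sq_monomial {d : ℕ} (k : ℕ) (t : Fin d →₀ ℕ) :
    Sq d k (monomial t 1) = ∑ m ∈ Fintype.piFinset (fun i => Finset.range (t i + 1)),
      if ∑ i, m i = k then (monomial (t + Finsupp.equivFunOnFinite.symm m)
          (∏ i, (((t i).choose (m i) : ℕ) : ZMod 2)) : P d) else 0 := by
  rw [Sq_apply, totalSq_monomial, Polynomial.finsetSum_coeff]
  refine Finset.sum_congr rfl fun m _ => ?_
  rw [Polynomial.coeff_X_pow_mul', Polynomial.coeff_C]
  by_cases h : ∑ i, m i = k
  · rw [if_pos h, if_pos h.le, if_pos (by omega)]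
  · rw [if_neg h]
    by_cases h' : ∑ i, m i ≤ k
    · rw [if_pos h', if_neg (by omega)]
    · rw [if_neg h']

theorem coeff_Sq_monomial {d : ℕ} (k : ℕ) (t u : Fin d →₀ ℕ) :
    coeff u (Sq d k (monomial t 1)) =
      if t ≤ u ∧ ∑ i, (u i - t i) = k then ∏ i, (((t i).choose (u i - t i) : ℕ) : ZMod 2)
      else 0 := by
  rw [Sq_monomial, coeff_sum]
  by_cases h : t ≤ u
  · rw [Finset.sum_eq_single (fun i => u i - t i)]
    · by_cases h' : ∑ i, (u i - t i) = k
      · rw [if_pos h', if_pos (And.intro h h'), coeff_monomial, if_pos]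
        ext i
        have := h i
        simp
        omega
      · rw [if_neg h', if_neg (by tauto)]
        simp
    · intro m _ hm
      split_ifs with h1
      · rw [coeff_monomial, if_neg]
        intro h2
        apply hm
        funext i
        rw [← h2]
        simp
      · simp
    · intro hm
      have : ∃ i, u i - t i ∉ Finset.range (t i + 1) := by
        by_contra hc
        push Not at hc
        exact hm (Fintype.mem_piFinset.mpr hc)
      obtain ⟨i, hi⟩ := this
      have hi' : t i < u i - t i := by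
        rw [Finset.mem_range] at hi
        omega
      have : ∏ i, (((t i).choose (u i - t i) : ℕ) : ZMod 2) = 0 :=
        Finset.prod_eq_zero (Finset.mem_univ i) (by rw [Nat.choose_eq_zero_of_lt hi']; simp)
      rw [this]
      split_ifs <;> simp
  · rw [if_neg (by tauto)]
    refine Finset.sum_eq_zero fun m _ => ?_
    split_ifs with h1
    · rw [coeff_monomial, if_neg]
      intro h2
      apply h
      rw [← h2]
      exact le_self_add
    · simp

end Pool.Agent.Q136.Kameko
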