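import Pool.Agent.Q136.Kam1

namespace Pool.Agent.Q136.Kameko

open MvPolynomial

/-! ### Binomials mod 2 -/

theorem choose_even_of_add_eq (a : ℕ) : ∀ t u : ℕ, 0 < u → t + u + 1 = 2 ^ a →
    ((t.choose u : ℕ) : ZMod 2) = 0 := by
  induction a with
  | zero => intro t u hu h; simp at h; omega
  | succ a ih =>
    intro t u hu h
    have : Fact (Nat.Prime 2) := ⟨Nat.prime_two⟩
    have hl := Choose.choose_modEq_choose_mod_mul_choose_div_nat (n := t) (k := u) (p := 2)
    rw [← ZMod.natCast_eq_natCast_iff] at hl
    rw [hl]
    rw [pow_succ] at h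
    rcases Nat.mod_two_eq_zero_or_one u with h0 | h0
    · rw [Nat.cast_mul, ih (t / 2) (u / 2) (by omega) (by omega), mul_zero]
    · have : t % 2 = 0 := by omega
      rw [h0, this]
      simp

theorem choose_dbl (t u : ℕ) : (((2 * t + 1).choose (2 * u) : ℕ) : ZMod 2) =
    ((t.choose u : ℕ) : ZMod 2) := by
  have : Fact (Nat.Prime 2) := ⟨Nat.prime_two⟩
  have hl := Choose.choose_modEq_choose_mod_mul_choose_div_nat (n := 2 * t + 1) (k := 2 * u)
    (p := 2)
  rw [← ZMod.natCast_eq_natCast_iff] at hl
  rw [hl]
  have e1 : (2 * t + 1) % 2 = 1 := by omega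
  have e2 : (2 * u) % 2 = 0 := by omega
  have e3 : (2 * t + 1) / 2 = t := by omega
  have e4 : (2 * u) / 2 = u := by omega
  rw [e1, e2, e3, e4]
  simp

theorem choose_even_odd (t u : ℕ) (ht : Even t) (hu : Odd u) :
    ((t.choose u : ℕ) : ZMod 2) = 0 := by
  have : Fact (Nat.Prime 2) := ⟨Nat.prime_two⟩
  have hl := Choose.choose_modEq_choose_mod_mul_choose_div_nat (n := t) (k := u)
    (p := 2)
  rw [← ZMod.natCast_eq_natCast_iff] at hl
  rw [hl, Nat.even_iff.mp ht, Nat.odd_iff.mp hu]
  simp

/-! ### `kap` -/

theorem kap_monomial {d : ℕ} (t : Fin d →₀ ℕ) (c : ZMod 2) :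
    kap d (monomial t c) =
      if ∀ i, Odd (t i) then monomial (t.mapRange (fun a => (a - 1) / 2) rfl) c else 0 := by
  have h1 : (monomial t c : P d) = c • (basisMonomials (Fin d) (ZMod 2)) t := by
    rw [coe_basisMonomials, smul_monomial]
    simp
  rw [h1, map_smul, kap, Module.Basis.constr_basis]
  split_ifs
  · rw [smul_monomial]
    simp
  · simp

/-- The exponent `2 s + 1`. -/
noncomputable def dbl {d : ℕ} (s : Fin d →₀ ℕ) : Fin d →₀ ℕ :=
  Finsupp.equivFunOnFinite.symm fun i => 2 * s i + 1

@[simp] theorem dbl_apply {d : ℕ} (s : Fin d →₀ ℕ) (i : Fin d) : dbl s i = 2 * s i + 1 := rfl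

theorem coeff_kap {d : ℕ} (s : Fin d →₀ ℕ) (f : P d) : coeff s (kap d f) = coeff (dbl s) f := by
  have : (lcoeff (R := ZMod 2) s).comp (kap d) = lcoeff (R := ZMod 2) (dbl s) := by
    apply (basisMonomials (Fin d) (ZMod 2)).ext
    intro t
    rw [coe_basisMonomials]
    change coeff s (kap d (monomial t 1)) = coeff (dbl s) (monomial t 1)
    rw [kap_monomial, coeff_monomial]
    split_ifs with h1 h2 h2
    · rw [h2, coeff_monomial, if_pos]
      ext i
      simp
    · rw [coeff_monomial, if_neg]
      intro h3
      apply h2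
      ext i
      rw [dbl_apply, ← h3]
      obtain ⟨j, hj⟩ := h1 i
      simp [hj]
    · exfalso
      apply h1
      intro i
      rw [h2]
      simp
    · simp
  exact congrArg (fun g => g f) this

theorem kap_sq_mul {d : ℕ} (g f : P d) : kap d (g ^ 2 * f) = g * kap d f := by
  have : Fact (Nat.Prime 2) := ⟨Nat.prime_two⟩
  induction g using MvPolynomial.induction_on' with
  | monomial a α =>
    induction f using MvPolynomial.induction_on' with
    | monomial b β =>
      have h2 : (monomial a α : P d) ^ 2 * monomial b β = monomial (a + a + b) (α * β) := by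
        rw [pow_two, monomial_mul, monomial_mul]
        have : α * α = α := by
          have := ZMod.pow_card α
          rw [pow_two] at this
          exact this
        rw [this]
      rw [h2, kap_monomial, kap_monomial]
      by_cases hb : ∀ i, Odd (b i)
      · rw [if_pos hb, if_pos, monomial_mul]
        · have e : Finsupp.mapRange (fun x => (x - 1) / 2) rfl (a + a + b) =
              a + Finsupp.mapRange (fun x => (x - 1) / 2) rfl b := by
            ext i
            obtain ⟨j, hj⟩ := hb i
            simp only [Finsupp.mapRange_apply, Finsupp.coe_add, Pi.add_apply, hj]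
            omega
          rw [e]
        · intro i
          obtain ⟨j, hj⟩ := hb i
          exact ⟨a i + j, by simp [hj]; ring⟩
      · rw [if_neg hb, if_neg]
        · simp
        · intro hc
          apply hb
          intro i
          have := hc i
          rw [Nat.odd_iff] at this ⊢
          simp at this
          omega
    | add p q hp hq => rw [mul_add, map_add, map_add, hp, hq]; ring
  | add p q hp hq =>
    rw [add_pow_char, add_mul, map_add, hp, hq]; ring

theorem kap_Sq {d : ℕ} (k : ℕ) (f : P d) :
    kap d (Sq d (2 * k) f) = Sq d k (kap d f) ∧ kap d (Sq d (2 * k + 1) f) = 0 := by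
  induction f using MvPolynomial.induction_on' with
  | add p q hp hq =>
    constructor
    · rw [map_add, map_add, map_add, map_add, hp.1, hq.1]
    · rw [map_add, map_add, hp.2, hq.2, add_zero]
  | monomial t c =>
    have hc : (monomial t c : P d) = c • monomial t 1 := by rw [smul_monomial]; simp
    rw [hc]
    simp only [map_smul]
    have key : ∀ (m : ℕ) (s : Fin d →₀ ℕ), coeff s (kap d (Sq d m (monomial t 1))) =
        if t ≤ dbl s ∧ ∑ i, (dbl s i - t i) = m then
          ∏ i, (((t i).choose (dbl s i - t i) : ℕ) : ZMod 2) else 0 := by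
      intro m s
      rw [coeff_kap, coeff_Sq_monomial]
    by_cases ht : ∀ i, Odd (t i)
    · choose t' ht' using ht
      have hle : ∀ s : Fin d →₀ ℕ, t ≤ dbl s ↔ Finsupp.equivFunOnFinite.symm t' ≤ s := by
        intro s
        constructor
        · intro h i
          have := h i
          rw [dbl_apply, ht'] at this
          simp
          omega
        · intro h i
          have := h i
          rw [dbl_apply, ht']
          simp at this
          omega
      have hsum : ∀ s : Fin d →₀ ℕ, ∑ i, (dbl s i - t i) = 2 * ∑ i, (s i - t' i) := by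
        intro s
        rw [Finset.mul_sum]
        refine Finset.sum_congr rfl fun i _ => ?_
        rw [dbl_apply, ht']
        omega
      have hkap : kap d (monomial t 1) = monomial (Finsupp.equivFunOnFinite.symm t') 1 := by
        rw [kap_monomial, if_pos (fun i => ⟨t' i, ht' i⟩)]
        have e : Finsupp.mapRange (fun x => (x - 1) / 2) rfl t =
            Finsupp.equivFunOnFinite.symm t' := by
          ext i
          simp [ht']
        rw [e]
      constructor
      · rw [hkap]
        congr 1
        ext s
        rw [key, coeff_Sq_monomial]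
        simp only [Finsupp.equivFunOnFinite_symm_apply_apply]
        have : (t ≤ dbl s ∧ ∑ i, (dbl s i - t i) = 2 * k) ↔
            (Finsupp.equivFunOnFinite.symm t' ≤ s ∧ ∑ i, (s i - t' i) = k) := by
          rw [hle, hsum]
          constructor
          · rintro ⟨h1, h2⟩
            exact ⟨h1, by omega⟩
          · rintro ⟨h1, h2⟩
            exact ⟨h1, by omega⟩
        rw [if_congr this _ rfl]
        refine Finset.prod_congr rfl fun i _ => ?_
        rw [← choose_dbl (t' i) (s i - t' i), dbl_apply, ht']
        congr 3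
        omega
      · have : kap d (Sq d (2 * k + 1) (monomial t 1)) = 0 := by
          ext s
          rw [key, hsum, if_neg]
          · simp
          · rintro ⟨_, h⟩
            omega
        rw [this, smul_zero]
    · have h0 : ∀ m, kap d (Sq d m (monomial t 1)) = 0 := by
        intro m
        ext s
        rw [key]
        split_ifs with h
        · push Not at ht
          obtain ⟨i, hi⟩ := ht
          have hi' : Even (t i) := Nat.not_odd_iff_even.mp hi
          rw [coeff_zero]
          apply Finset.prod_eq_zero (Finset.mem_univ i)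
          apply choose_even_odd _ _ hi'
          have := h.1 i
          rw [dbl_apply] at this ⊢
          rw [Nat.odd_iff]
          rw [Nat.even_iff] at hi'
          omega
        · simp
      rw [h0, h0, kap_monomial, if_neg ht]
      simp

theorem kap_mem_H {d n : ℕ} {h : Module.Dual (ZMod 2) (P d)} (hh : h ∈ H d n) :
    h.comp (kap d) ∈ H d (d + 2 * n) := by
  intro t ht
  rw [LinearMap.comp_apply, kap_monomial]
  split_ifs with h1
  · apply hh
    intro h2
    apply ht
    rw [← h2]
    rw [Finsupp.degree_eq_sum, Finsupp.degree_eq_sum]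
    have h3 : ∀ i ∈ (Finset.univ : Finset (Fin d)), t i =
        1 + 2 * (Finsupp.mapRange (fun a => (a - 1) / 2) rfl t) i := by
      intro i _
      obtain ⟨j, hj⟩ := h1 i
      simp only [Finsupp.mapRange_apply, hj]
      omega
    rw [Finset.sum_congr rfl h3, Finset.sum_add_distrib, ← Finset.mul_sum]
    simp
  · simp

theorem kap_mem_PH {d n : ℕ} {h : Module.Dual (ZMod 2) (P d)} (hh : h ∈ PH d n) :
    h.comp (kap d) ∈ PH d (d + 2 * n) := by
  refine ⟨kap_mem_H hh.1, ?_⟩
  intro k hk f
  rw [LinearMap.comp_apply]
  obtain ⟨j, hj | hj⟩ : ∃ j, k = 2 * j ∨ k = 2 * j + 1 := ⟨k / 2, by omega⟩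
  · rw [hj, (kap_Sq j f).1]
    exact hh.2 j (by omega) _
  · rw [hj, (kap_Sq j f).2]
    simp

/-! ### The action -/

theorem act_X {d : ℕ} (w : Matrix (Fin d) (Fin d) (ZMod 2)) (j : Fin d) :
    act w (X j) = ∑ i, C (w i j) * X i := by simp [act]

theorem act_one {d : ℕ} : act (1 : Matrix (Fin d) (Fin d) (ZMod 2)) = AlgHom.id _ _ := by
  apply MvPolynomial.algHom_ext
  intro j
  rw [act_X, Finset.sum_eq_single j]
  · simp
  · intro i _ hi
    simp [Matrix.one_apply_ne hi]
  · simp

theorem act_mul {d : ℕ} (w v : Matrix (Fin d) (Fin d) (ZMod 2)) :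
    act (w * v) = (act w).comp (act v) := by
  apply MvPolynomial.algHom_ext
  intro j
  rw [AlgHom.comp_apply, act_X, act_X, map_sum]
  have : ∀ i ∈ (Finset.univ : Finset (Fin d)), act w (C (v i j) * X i) =
      ∑ k, C (w k i * v i j) * X k := by
    intro i _
    rw [map_mul, act_X]
    have : act w (C (v i j)) = C (v i j) := by
      rw [← algebraMap_eq]
      exact (act w).commutes _
    rw [this, Finset.mul_sum]
    refine Finset.sum_congr rfl fun k _ => ?_
    rw [map_mul]
    ring
  rw [Finset.sum_congr rfl this, Finset.sum_comm]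
  refine Finset.sum_congr rfl fun k _ => ?_
  rw [Matrix.mul_apply, map_sum, Finset.sum_mul]

theorem act_Sq {d k : ℕ} (w : Matrix (Fin d) (Fin d) (ZMod 2)) (f : P d) :
    act w (Sq d k f) = Sq d k (act w f) := by
  have : Fact (Nat.Prime 2) := ⟨Nat.prime_two⟩
  have h : (Polynomial.mapAlgHom (act w)).comp (totalSq d) = (totalSq d).comp (act w) := by
    apply MvPolynomial.algHom_ext
    intro j
    rw [AlgHom.comp_apply, AlgHom.comp_apply, totalSq_X, act_X, map_sum]
    have h1 : ∀ i ∈ (Finset.univ : Finset (Fin d)), totalSq d (C (w i j) * X i) =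
        Polynomial.C (C (w i j) * X i) + Polynomial.X * Polynomial.C ((C (w i j) * X i) ^ 2) := by
      intro i _
      have h2 : totalSq d (C (w i j)) = Polynomial.C (C (w i j)) := by
        rw [← algebraMap_eq, AlgHom.commutes]
        rfl
      have h3 : (w i j) ^ 2 = w i j := ZMod.pow_card _
      rw [map_mul, totalSq_X, h2, mul_pow, ← map_pow, h3]
      simp only [map_mul]
      ring
    rw [Finset.sum_congr rfl h1, Finset.sum_add_distrib, ← Finset.mul_sum, ← map_sum, ← map_sum,
      ← sum_pow_char]
    simp [act_X]
  have := congrArg (fun g => (g f).coeff k) h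
  simpa [Sq_apply, Polynomial.coeff_map] using this

theorem H_apply_of_isHomogeneous {d n m : ℕ} {h : Module.Dual (ZMod 2) (P d)} (hh : h ∈ H d n)
    (hm : m ≠ n) {f : P d} (hf : f.IsHomogeneous m) : h f = 0 := by
  rw [f.as_sum, map_sum]
  refine Finset.sum_eq_zero fun t ht => ?_
  have h1 : t.degree = m := by
    have := hf (mem_support_iff.mp ht)
    rw [← this]
    rw [Finsupp.degree_eq_weight_one]
    rfl
  have : (monomial t (coeff t f) : P d) = coeff t f • monomial t 1 := by
    rw [smul_monomial]; simp
  rw [this, map_smul, hh t (by omega), smul_zero]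

theorem act_isHomogeneous {d m : ℕ} (w : Matrix (Fin d) (Fin d) (ZMod 2)) {f : P d}
    (hf : f.IsHomogeneous m) : (act w f).IsHomogeneous m := by
  have := hf.aeval (fun j => ∑ i, C (w i j) * X i) (n := 1) (fun j => by
    apply IsHomogeneous.sum
    intro i _
    have := (isHomogeneous_C (Fin d) (w i j)).mul (isHomogeneous_X (ZMod 2) i)
    simpa using this)
  simpa [act] using this

theorem comp_act_mem_PH {d n : ℕ} {h : Module.Dual (ZMod 2) (P d)} (hh : h ∈ PH d n)
    (w : Matrix (Fin d) (Fin d) (ZMod 2)) : h.comp (act w).toLinearMap ∈ PH d n := by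
  constructor
  · intro t ht
    rw [LinearMap.comp_apply]
    apply H_apply_of_isHomogeneous hh.1 ht
    apply act_isHomogeneous
    exact isHomogeneous_monomial _ rfl
  · intro k hk f
    rw [LinearMap.comp_apply]
    change h (act w (Sq d k f)) = 0
    rw [act_Sq]
    exact hh.2 k hk _

end Pool.Agent.Q136.Kameko
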