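import Pool.Agent.Q136.Kam2

namespace Pool.Agent.Q136.Kameko

open MvPolynomial

/-! ### Equivariance of `kap` -/

theorem act_transvection_X {d : ℕ} (a b : Fin d) (hab : a ≠ b) (j : Fin d) :
    act (Matrix.transvection a b 1) (X j) = if j = b then X b + X a else X j := by
  rw [act_X]
  have h1 : ∀ i ∈ (Finset.univ : Finset (Fin d)),
      (C ((Matrix.transvection a b (1 : ZMod 2)) i j) * X i : P d) =
      (if i = j then X i else 0) + (if i = a then (if j = b then X a else 0) else 0) := by
    intro i _
    rw [Matrix.transvection, Matrix.add_apply, map_add, add_mul, Matrix.one_apply,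
      Matrix.single_apply]
    congr 1
    · split_ifs <;> simp
    · by_cases hi : i = a
      · by_cases hj : j = b
        · rw [if_pos ⟨hi.symm, hj.symm⟩, if_pos hi, if_pos hj, hi]; simp
        · rw [if_neg (by tauto), if_pos hi, if_neg hj]; simp
      · rw [if_neg (by tauto), if_neg hi]; simp
  rw [Finset.sum_congr rfl h1, Finset.sum_add_distrib]
  simp only [Finset.sum_ite_eq', Finset.mem_univ, if_true]
  split_ifs with h
  · rw [h]
  · simp

theorem monomial_eq_prod {d : ℕ} (t : Fin d →₀ ℕ) : (monomial t 1 : P d) = ∏ i, X i ^ t i := by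
  rw [MvPolynomial.monomial_eq]
  simp [Finsupp.prod_fintype]

theorem kap_act_squarefree {d : ℕ} (a b : Fin d) (hab : a ≠ b) (e : Fin d →₀ ℕ)
    (he : ∀ i, e i ≤ 1) : kap d (act (Matrix.transvection a b 1) (monomial e 1)) =
      act (Matrix.transvection a b 1) (kap d (monomial e 1)) := by
  have hk : kap d (monomial e 1) = if ∀ i, Odd (e i) then 1 else 0 := by
    rw [kap_monomial]
    split_ifs with h
    · have : Finsupp.mapRange (fun x => (x - 1) / 2) rfl e = 0 := by
        ext i
        have := he i
        simp only [Finsupp.mapRange_apply, Finsupp.coe_zero, Pi.zero_apply]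
        omega
      rw [this]
      rfl
    · rfl
  have hR : act (Matrix.transvection a b 1) (kap d (monomial e 1)) = kap d (monomial e 1) := by
    rw [hk]
    split_ifs <;> simp
  rw [hR]
  obtain hb | hb : e b = 0 ∨ e b = 1 := by have := he b; omega
  · congr 1
    rw [monomial_eq_prod, map_prod]
    refine Finset.prod_congr rfl fun i _ => ?_
    rw [map_pow, act_transvection_X a b hab]
    split_ifs with h
    · rw [h, hb, pow_zero, pow_zero]
    · rfl
  · have h1 : act (Matrix.transvection a b 1) (monomial e 1) =
        monomial e 1 + monomial (e - Finsupp.single b 1 + Finsupp.single a 1) 1 := by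
      have h2 : (monomial e 1 : P d) = X b * monomial (e - Finsupp.single b 1) 1 := by
        rw [X, monomial_mul]
        · have : e = Finsupp.single b 1 + (e - Finsupp.single b 1) := by
            ext i
            simp only [Finsupp.coe_add, Finsupp.coe_tsub, Pi.add_apply, Pi.sub_apply,
              Finsupp.single_apply]
            split_ifs with h
            · rw [← h, hb]
            · simp
          rw [← this, one_mul]
      have h3 : act (Matrix.transvection a b 1) (monomial (e - Finsupp.single b 1) 1) =
          (monomial (e - Finsupp.single b 1) 1 : P d) := by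
        rw [monomial_eq_prod, map_prod]
        refine Finset.prod_congr rfl fun i _ => ?_
        rw [map_pow, act_transvection_X a b hab]
        split_ifs with h
        · rw [h]
          simp [hb]
        · rfl
      conv_lhs => rw [h2]
      rw [map_mul, h3, act_transvection_X a b hab, if_pos rfl, add_mul, ← h2]
      rw [X, monomial_mul, add_comm (Finsupp.single a 1), one_mul]
    rw [h1, map_add]
    have h4 : kap d (monomial (e - Finsupp.single b 1 + Finsupp.single a 1) 1) = 0 := by
      rw [kap_monomial, if_neg]
      intro hc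
      have := hc b
      simp [hb, Finsupp.single_apply, hab] at this
    rw [h4, add_zero]

theorem kap_act_transvection {d : ℕ} (a b : Fin d) (hab : a ≠ b) (f : P d) :
    kap d (act (Matrix.transvection a b 1) f) = act (Matrix.transvection a b 1) (kap d f) := by
  induction f using MvPolynomial.induction_on' with
  | add p q hp hq => simp only [map_add, hp, hq]
  | monomial t c =>
    have hc : (monomial t c : P d) = c • monomial t 1 := by rw [smul_monomial]; simp
    rw [hc]
    simp only [map_smul]
    congr 1
    have h2 : (monomial t 1 : P d) =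
        (monomial (t.mapRange (fun x => x / 2) rfl) 1) ^ 2 *
          monomial (t.mapRange (fun x => x % 2) rfl) 1 := by
      rw [pow_two, monomial_mul, monomial_mul]
      have e : t = t.mapRange (fun x => x / 2) rfl + t.mapRange (fun x => x / 2) rfl +
          t.mapRange (fun x => x % 2) rfl := by
        ext i
        simp only [Finsupp.coe_add, Pi.add_apply, Finsupp.mapRange_apply]
        omega
      conv_lhs => rw [e]
      simp
    rw [h2, map_mul, map_pow, kap_sq_mul, kap_sq_mul, map_mul, kap_act_squarefree a b hab]
    intro i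
    simp only [Finsupp.mapRange_apply]
    omega

theorem kap_act {d : ℕ} (w : Matrix (Fin d) (Fin d) (ZMod 2)) (hw : w.det ≠ 0) (f : P d) :
    kap d (act w f) = act w (kap d f) := by
  revert f
  refine Matrix.diagonal_transvection_induction_of_det_ne_zero
    (P := fun w => ∀ f : P d, kap d (act w f) = act w (kap d f)) w hw ?_ ?_ ?_
  · intro D hD f
    have : D = 1 := by
      funext i
      rw [Matrix.det_diagonal, Finset.prod_ne_zero_iff] at hD
      have := hD i (Finset.mem_univ i)
      have h01 : ∀ x : ZMod 2, x ≠ 0 → x = 1 := by decide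
      exact h01 _ this
    rw [this]
    have h1 : Matrix.diagonal (1 : Fin d → ZMod 2) = 1 := Matrix.diagonal_one
    rw [h1, act_one]
    rfl
  · rintro ⟨i, j, hij, c⟩ f
    have hc : c = 0 ∨ c = 1 := by revert c; decide
    rcases hc with rfl | rfl
    · simp only [Matrix.TransvectionStruct.toMatrix_mk, Matrix.transvection_zero]
      rw [act_one]
      rfl
    · exact kap_act_transvection i j hij f
  · intro A B _ _ hA hB f
    rw [act_mul, AlgHom.comp_apply, AlgHom.comp_apply, hA, hB]

/-! ### The coinvariants and the induced map -/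

/-- The right action of `w` on `PH_n`: `(h w)(f) = h (w f)`. -/
noncomputable def actPH {d n : ℕ} (w : Matrix (Fin d) (Fin d) (ZMod 2)) :
    PH d n →ₗ[ZMod 2] PH d n where
  toFun h := ⟨h.1.comp (act w).toLinearMap, comp_act_mem_PH h.2 w⟩
  map_add' _ _ := rfl
  map_smul' _ _ := rfl

/-- The span of all `h w - h` with `w ∈ GL_d(F_2)` and `h ∈ PH_n`. -/
noncomputable def Rel (d n : ℕ) : Submodule (ZMod 2) (PH d n) :=
  Submodule.span (ZMod 2)
    {x | ∃ (w : GL (Fin d) (ZMod 2)) (h : PH d n), x = actPH (w : Matrix _ _ _) h - h}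

/-- The coinvariants `F_2 ⊗_{GL_d} PH_n`. -/
abbrev Coinv (d n : ℕ) := PH d n ⧸ Rel d n

/-- Kameko's map `PH_n → PH_{d+2n}`, the transpose of `kap`. -/
noncomputable def kamPH (d n : ℕ) : PH d n →ₗ[ZMod 2] PH d (d + 2 * n) where
  toFun h := ⟨h.1.comp (kap d), kap_mem_PH h.2⟩
  map_add' _ _ := rfl
  map_smul' _ _ := rfl

theorem kamPH_actPH {d n : ℕ} (w : GL (Fin d) (ZMod 2)) (h : PH d n) :
    kamPH d n (actPH (w : Matrix _ _ _) h) = actPH (w : Matrix _ _ _) (kamPH d n h) := by
  apply Subtype.ext
  apply LinearMap.ext
  intro f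
  change h.1 (act (w : Matrix _ _ _) (kap d f)) = h.1 (kap d (act (w : Matrix _ _ _) f))
  rw [kap_act]
  exact (Matrix.isUnit_iff_isUnit_det _).mp w.isUnit |>.ne_zero

theorem Rel_le_comap {d n : ℕ} : Rel d n ≤ (Rel d (d + 2 * n)).comap (kamPH d n) := by
  rw [Rel, Submodule.span_le]
  rintro x ⟨w, h, rfl⟩
  rw [SetLike.mem_coe, Submodule.mem_comap, LinearMap.map_sub, kamPH_actPH]
  exact Submodule.subset_span ⟨w, _, rfl⟩

/-- Kameko's squaring operation on the coinvariants. -/
noncomputable def kamCoinv (d n : ℕ) : Coinv d n →ₗ[ZMod 2] Coinv d (d + 2 * n) :=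
  Submodule.mapQ _ _ (kamPH d n) Rel_le_comap

theorem not_injective_of {d n : ℕ} (h : PH d n) (h1 : h ∉ Rel d n)
    (h2 : kamPH d n h ∈ Rel d (d + 2 * n)) : ¬ Function.Injective (kamCoinv d n) := by
  intro hinj
  apply h1
  have : kamCoinv d n (Submodule.Quotient.mk h) = kamCoinv d n 0 := by
    rw [map_zero, kamCoinv, Submodule.mapQ_apply]
    exact (Submodule.Quotient.mk_eq_zero _).mpr h2
  exact (Submodule.Quotient.mk_eq_zero _).mp (hinj this)

end Pool.Agent.Q136.Kameko
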