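import Pool.Agent.Q136.Kam3

namespace Pool.Agent.Q136.Kameko

open MvPolynomial

/-! ### Hit polynomials and words -/

/-- The span of all `Sq^k f`, `k > 0`. -/
noncomputable def Hit (d : ℕ) : Submodule (ZMod 2) (P d) :=
  Submodule.span (ZMod 2) {g | ∃ k : ℕ, 0 < k ∧ ∃ f : P d, g = Sq d k f}

theorem Sq_mem_Hit {d k : ℕ} (hk : 0 < k) (f : P d) : Sq d k f ∈ Hit d :=
  Submodule.subset_span ⟨k, hk, f, rfl⟩

theorem PH_apply_hit {d n : ℕ} {h : Module.Dual (ZMod 2) (P d)} (hh : h ∈ PH d n) {g : P d}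
    (hg : g ∈ Hit d) : h g = 0 := by
  have : Hit d ≤ LinearMap.ker h := by
    rw [Hit, Submodule.span_le]
    rintro x ⟨k, hk, f, rfl⟩
    exact hh.2 k hk f
  exact this hg

theorem X_mul_sq_mem_Hit {d : ℕ} (a : Fin d) {f : P d} (hf : f ∈ Hit d) :
    X a * f ^ 2 ∈ Hit d := by
  have : Fact (Nat.Prime 2) := ⟨Nat.prime_two⟩
  induction hf using Submodule.span_induction with
  | mem x hx =>
    obtain ⟨k, hk, g, rfl⟩ := hx
    rw [X_mul_Sq_sq hk]
    exact Sq_mem_Hit (by omega) _
  | zero => simp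
  | add x y _ _ hx hy =>
    rw [add_pow_char, mul_add]
    exact (Hit d).add_mem hx hy
  | smul c x _ hx =>
    rw [smul_pow, mul_smul_comm]
    exact (Hit d).smul_mem _ hx

/-- `M [p_0, p_1, ...] = p_0 * p_1^2 * p_2^4 * ...`. -/
noncomputable def M {d : ℕ} : List (P d) → P d
  | [] => 1
  | p :: l => p * (M l) ^ 2

theorem two_eq_zero' {d : ℕ} : (2 : P d) = 0 := by
  have := CharP.cast_eq_zero (P d) 2
  exact_mod_cast this

theorem sub_sq' {d : ℕ} (x y : P d) : (x - y) ^ 2 = x ^ 2 - y ^ 2 := by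
  have : Fact (Nat.Prime 2) := ⟨Nat.prime_two⟩
  exact sub_pow_char _ _

theorem M_cons_congr {d : ℕ} (a : Fin d) {p q : P d} (h : p - q ∈ Hit d) :
    X a * p ^ 2 - X a * q ^ 2 ∈ Hit d := by
  rw [← mul_sub, ← sub_sq']
  exact X_mul_sq_mem_Hit a h

theorem Sq_one_mul_sq {d : ℕ} (f g : P d) : Sq d 1 (f * g ^ 2) = Sq d 1 f * g ^ 2 := by
  rw [Sq_one_mul, Sq_one_sq, mul_zero, add_zero]

theorem M_swap {d : ℕ} (a b : Fin d) (p : P d) :
    X a * (X b * p ^ 2) ^ 2 - X b * (X a * p ^ 2) ^ 2 ∈ Hit d := by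
  have h : X a * (X b * p ^ 2) ^ 2 - X b * (X a * p ^ 2) ^ 2 =
      Sq d 1 (X a * X b * (p ^ 2) ^ 2) := by
    rw [Sq_one_mul_sq, Sq_one_mul, Sq_one_X, Sq_one_X]
    linear_combination (-(X b * X a ^ 2 * p ^ 4)) * (two_eq_zero' (d := d))
  rw [h]
  exact Sq_mem_Hit (by norm_num) _

theorem M_aab {d : ℕ} (a b : Fin d) (p : P d) :
    X a * (X a * (X b * p ^ 2) ^ 2) ^ 2 - X b * (X b * (X a * p ^ 2) ^ 2) ^ 2 ∈ Hit d := by
  have h : X a * (X a * (X b * p ^ 2) ^ 2) ^ 2 - X b * (X b * (X a * p ^ 2) ^ 2) ^ 2 =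
      Sq d 1 (X a * X b * (X a * X b * (p ^ 4)) ^ 2) := by
    rw [Sq_one_mul_sq, Sq_one_mul, Sq_one_X, Sq_one_X]
    linear_combination (-(X b ^ 3 * X a ^ 4 * p ^ 8)) * (two_eq_zero' (d := d))
  rw [h]
  exact Sq_mem_Hit (by norm_num) _

/-- The monomial of a word. -/
noncomputable def W {d : ℕ} (l : List (Fin d)) : P d := M (l.map X)

theorem W_cons {d : ℕ} (a : Fin d) (l : List (Fin d)) : W (a :: l) = X a * (W l) ^ 2 := rfl

theorem W_perm {d : ℕ} {l l' : List (Fin d)} (h : l.Perm l') : W l - W l' ∈ Hit d := by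
  induction h with
  | nil => simp
  | cons a _ ih => exact M_cons_congr a ih
  | swap a b l => exact M_swap b a _
  | trans _ _ h1 h2 =>
    have := (Hit d).add_mem h1 h2
    simpa using this

theorem W_replace {d : ℕ} (a b : Fin d) (l : List (Fin d)) (ha : a ∈ l) (hb : b ∈ l) :
    W (b :: l) - W (a :: l) ∈ Hit d := by
  by_cases hab : a = b
  · rw [hab]; simp
  · obtain ⟨l1, h1⟩ : ∃ l1, l.Perm (a :: l1) := ⟨l.erase a, List.perm_cons_erase ha⟩
    have hb1 : b ∈ l1 := by
      have := h1.mem_iff.mp hb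
      simp only [List.mem_cons] at this
      tauto
    obtain ⟨l2, h2⟩ : ∃ l2, l1.Perm (b :: l2) := ⟨l1.erase b, List.perm_cons_erase hb1⟩
    have h3 : l.Perm (a :: b :: l2) := h1.trans (h2.cons a)
    have h4 : (b :: l).Perm (b :: b :: a :: l2) :=
      (h3.cons b).trans ((List.Perm.swap b a l2).cons b)
    have h5 : (a :: l).Perm (a :: a :: b :: l2) := h3.cons a
    have e1 := W_perm h4
    have e2 := W_perm h5
    have e3 : W (a :: a :: b :: l2) - W (b :: b :: a :: l2) ∈ Hit d := M_aab a b _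
    have := (Hit d).sub_mem e1 ((Hit d).add_mem e2 e3)
    convert this using 1
    ring

theorem W_append_replicate {d : ℕ} (a : Fin d) (l r : List (Fin d)) (ha : a ∈ l)
    (hr : ∀ b ∈ r, b ∈ l) :
    W (r ++ l) - W (List.replicate r.length a ++ l) ∈ Hit d := by
  induction r with
  | nil => simp
  | cons b r ih =>
    have h1 := ih (fun c hc => hr c (by simp [hc]))
    have h2 : W (a :: (r ++ l)) - W (a :: (List.replicate r.length a ++ l)) ∈ Hit d :=
      M_cons_congr a h1
    have h3 : W (b :: (r ++ l)) - W (a :: (r ++ l)) ∈ Hit d :=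
      W_replace a b (r ++ l) (by simp [ha]) (by
        have := hr b (by simp)
        simp [this])
    have := (Hit d).add_mem h3 h2
    simpa [List.replicate_succ] using this

theorem W_eq_normal {d : ℕ} (a : Fin d) (l : List (Fin d)) (ha : a ∈ l) :
    W l - W (List.replicate (l.length - l.toFinset.card) a ++ l.toFinset.toList) ∈ Hit d := by
  have h1 : l.toFinset.val ≤ (l : Multiset (Fin d)) := by
    rw [Multiset.le_iff_subset l.toFinset.nodup]
    intro x hx
    simpa using hx
  obtain ⟨r, hr⟩ := Multiset.le_iff_exists_add.mp h1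
  have h2 : l.Perm (r.toList ++ l.toFinset.toList) := by
    rw [← Multiset.coe_eq_coe, hr, ← Multiset.coe_add, Multiset.coe_toList, Finset.coe_toList,
      add_comm]
  have h3 := W_perm h2
  have h4 : r.toList.length = l.length - l.toFinset.card := by
    have := h2.length_eq
    rw [List.length_append, Finset.length_toList] at this
    omega
  have h5 := W_append_replicate a l.toFinset.toList r.toList (by simpa using ha) (by
    intro b hb
    have : b ∈ l := h2.mem_iff.mpr (by simp only [List.mem_append]; exact Or.inl hb)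
    simpa using this)
  rw [h4] at h5
  have := (Hit d).add_mem h3 h5
  simpa using this

theorem W_eq_of {d : ℕ} {l l' : List (Fin d)} (h1 : l.length = l'.length)
    (h2 : l.toFinset = l'.toFinset) : W l - W l' ∈ Hit d := by
  rcases l with _ | ⟨a, l⟩
  · have : l' = [] := by
      apply List.length_eq_zero_iff.mp
      simpa using h1.symm
    rw [this]; simp
  · have e1 := W_eq_normal a (a :: l) (by simp)
    have ha : a ∈ l' := by
      have : a ∈ (a :: l).toFinset := by simp
      rw [h2] at this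
      simpa using this
    have e2 := W_eq_normal a l' ha
    rw [← h2, ← h1] at e2
    have := (Hit d).sub_mem e1 e2
    convert this using 1
    ring

end Pool.Agent.Q136.Kameko
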