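import Pool.Agent.Q136.Kam4

namespace Pool.Agent.Q136.Kameko

open MvPolynomial

/-! ### The invariant class -/

/-- A word of length `k` with support `S` (for nonempty `S` with at most `k` elements). -/
noncomputable def lst {d : ℕ} (k : ℕ) (S : Finset (Fin d)) : List (Fin d) :=
  if h : S.Nonempty then List.replicate (k - S.card) h.choose ++ S.toList else []

theorem lst_length {d k : ℕ} {S : Finset (Fin d)} (hS : S.Nonempty) (hk : S.card ≤ k) :
    (lst k S).length = k := by
  rw [lst, dif_pos hS, List.length_append, List.length_replicate, Finset.length_toList]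
  omega

theorem lst_toFinset {d k : ℕ} {S : Finset (Fin d)} (hS : S.Nonempty) :
    (lst k S).toFinset = S := by
  rw [lst, dif_pos hS]
  ext x
  simp only [List.toFinset_append, Finset.mem_union, List.mem_toFinset, List.mem_replicate,
    Finset.mem_toList]
  constructor
  · rintro (⟨_, h⟩ | h)
    · rw [h]; exact hS.choose_spec
    · exact h
  · intro h
    exact Or.inr h

/-- The values of the functional on supports. -/
noncomputable def gS {d : ℕ} (k : ℕ) (h : Module.Dual (ZMod 2) (P d)) (S : Finset (Fin d)) :
    ZMod 2 := if S.Nonempty then h (W (lst k S)) else 0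

/-- The functional `x^t ↦ g (supp t)`. -/
noncomputable def Lam {d : ℕ} (k : ℕ) (h : Module.Dual (ZMod 2) (P d)) :
    Module.Dual (ZMod 2) (P d) :=
  (basisMonomials (Fin d) (ZMod 2)).constr (ZMod 2) fun t => gS k h t.support

theorem Lam_monomial {d k : ℕ} (h : Module.Dual (ZMod 2) (P d)) (t : Fin d →₀ ℕ) :
    Lam k h (monomial t 1) = gS k h t.support := by
  have h1 : (monomial t 1 : P d) = (basisMonomials (Fin d) (ZMod 2)) t := by
    rw [coe_basisMonomials]
  rw [h1, Lam, Module.Basis.constr_basis]

/-- The linear form with coefficients `u`. -/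
noncomputable def lin {d : ℕ} (u : Fin d → ZMod 2) : P d := ∑ i, C (u i) * X i

theorem M_append_add {d : ℕ} (c : List (P d)) (p q : P d) (r : List (P d)) :
    M (c ++ (p + q) :: r) = M (c ++ p :: r) + M (c ++ q :: r) := by
  have : Fact (Nat.Prime 2) := ⟨Nat.prime_two⟩
  induction c with
  | nil => simp [M]; ring
  | cons a c ih =>
    simp only [List.cons_append, M] at ih ⊢
    rw [ih, add_pow_char]
    ring

theorem M_append_zero {d : ℕ} (c : List (P d)) (r : List (P d)) :
    M (c ++ (0 : P d) :: r) = 0 := by
  induction c with
  | nil => simp [M]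
  | cons a c ih =>
    simp only [List.cons_append, M] at ih ⊢
    rw [ih]
    ring

theorem M_append_sum {d : ℕ} {ι : Type} (s : Finset ι) (f : ι → P d) (c r : List (P d)) :
    M (c ++ (∑ i ∈ s, f i) :: r) = ∑ i ∈ s, M (c ++ f i :: r) := by
  classical
  induction s using Finset.induction_on with
  | empty => simp [M_append_zero]
  | insert a s ha ih => rw [Finset.sum_insert ha, Finset.sum_insert ha, M_append_add, ih]

theorem M_append_lin {d : ℕ} (u : Fin d → ZMod 2) (c r : List (P d)) :
    M (c ++ lin u :: r) = ∑ i, u i • M (c ++ X i :: r) := by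
  rw [lin, M_append_sum]
  refine Finset.sum_congr rfl fun i _ => ?_
  have h01 : ∀ x : ZMod 2, x = 0 ∨ x = 1 := by decide
  rcases h01 (u i) with h | h
  · rw [h]; simp [M_append_zero]
  · rw [h]; simp

theorem word_prod {d : ℕ} (c : List (Fin d)) :
    ∃ t : Fin d →₀ ℕ, ((c.map X).prod : P d) = monomial t 1 ∧ t.support = c.toFinset := by
  induction c with
  | nil => exact ⟨0, by simp, by simp⟩
  | cons a c ih =>
    obtain ⟨t, h1, h2⟩ := ih
    refine ⟨Finsupp.single a 1 + t, ?_, ?_⟩
    · rw [List.map_cons, List.prod_cons, h1, X, monomial_mul, one_mul]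
    · rw [List.toFinset_cons, ← h2]
      ext x
      simp only [Finsupp.mem_support_iff, Finsupp.coe_add, Pi.add_apply, Finset.mem_insert,
        Finsupp.single_apply]
      by_cases hx : a = x
      · simp [hx]
      · simp [hx, Ne.symm hx]

theorem key_lin {d n k : ℕ} (hk : 0 < k) {h : Module.Dual (ZMod 2) (P d)}
    (hh : h ∈ PH d n) (v : List (Fin d → ZMod 2)) :
    ∀ c : List (Fin d), c.length + v.length = k →
      h (M (c.map X ++ v.map lin)) = Lam k h ((c.map X).prod * (v.map lin).prod) := by
  induction v with
  | nil =>
    intro c hc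
    rw [List.map_nil, List.append_nil, List.prod_nil, mul_one]
    obtain ⟨t, h1, h2⟩ := word_prod c
    rw [h1, Lam_monomial, h2, gS]
    have hne : c.toFinset.Nonempty := by
      rcases c with _ | ⟨a, c⟩
      · simp at hc; omega
      · exact ⟨a, by simp⟩
    rw [if_pos hne]
    have h3 : W c - W (lst k c.toFinset) ∈ Hit d := by
      apply W_eq_of
      · rw [lst_length hne]
        · simpa using hc
        · have := List.toFinset_card_le c
          simp at hc
          omega
      · rw [lst_toFinset hne]
    have := PH_apply_hit hh h3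
    rw [map_sub, sub_eq_zero] at this
    exact this
  | cons u v ih =>
    intro c hc
    rw [List.map_cons, M_append_lin, map_sum, List.prod_cons]
    have h1 : (c.map X).prod * (lin u * (v.map lin).prod) =
        ∑ i, u i • (((c ++ [i]).map X).prod * (v.map lin).prod) := by
      rw [lin, Finset.sum_mul, Finset.mul_sum]
      refine Finset.sum_congr rfl fun i _ => ?_
      rw [List.map_append, List.prod_append, smul_eq_C_mul]
      simp
      ring
    rw [h1, map_sum]
    refine Finset.sum_congr rfl fun i _ => ?_
    rw [map_smul, map_smul]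
    congr 1
    have := ih (c ++ [i]) (by simp at hc ⊢; omega)
    rw [← this, List.map_append]
    simp

/-! ### Reduction to functions -/

/-- The multilinear reduction. -/
noncomputable def red {d : ℕ} : P d →ₗ[ZMod 2] P d :=
  (basisMonomials (Fin d) (ZMod 2)).constr (ZMod 2) fun t =>
    monomial (t.mapRange (fun a => min a 1) rfl) 1

theorem red_monomial {d : ℕ} (t : Fin d →₀ ℕ) :
    red (monomial t 1 : P d) = monomial (t.mapRange (fun a => min a 1) rfl) 1 := by
  have h1 : (monomial t 1 : P d) = (basisMonomials (Fin d) (ZMod 2)) t := by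
    rw [coe_basisMonomials]
  rw [h1, red, Module.Basis.constr_basis]

theorem eval_red {d : ℕ} (x : Fin d → ZMod 2) (p : P d) : eval x (red p) = eval x p := by
  induction p using MvPolynomial.induction_on' with
  | add p q hp hq => simp only [map_add, hp, hq]
  | monomial t c =>
    have hc : (monomial t c : P d) = c • monomial t 1 := by rw [smul_monomial]; simp
    rw [hc, map_smul, smul_eval, smul_eval, red_monomial, monomial_eq_prod, monomial_eq_prod,
      map_prod, map_prod]
    congr 1
    refine Finset.prod_congr rfl fun i _ => ?_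
    rw [map_pow, map_pow, eval_X, Finsupp.mapRange_apply]
    have h01 : ∀ y : ZMod 2, y = 0 ∨ y = 1 := by decide
    rcases h01 (x i) with h | h
    · rw [h]
      rcases Nat.eq_zero_or_pos (t i) with h0 | h0
      · rw [h0]; simp
      · rw [zero_pow (by omega), zero_pow (by omega)]
    · rw [h]; simp

theorem red_mem {d : ℕ} (p : P d) : red p ∈ restrictDegree (Fin d) (ZMod 2) 1 := by
  induction p using MvPolynomial.induction_on' with
  | add p q hp hq => rw [map_add]; exact Submodule.add_mem _ hp hq
  | monomial t c =>
    have hc : (monomial t c : P d) = c • monomial t 1 := by rw [smul_monomial]; simp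
    rw [hc, map_smul, red_monomial]
    apply Submodule.smul_mem
    rw [mem_restrictDegree]
    intro s hs i
    have : s = t.mapRange (fun a => min a 1) rfl := by
      have := support_monomial_subset hs
      simpa using this
    rw [this]
    simp

theorem Lam_red {d k : ℕ} (h : Module.Dual (ZMod 2) (P d)) (p : P d) :
    Lam k h (red p) = Lam k h p := by
  induction p using MvPolynomial.induction_on' with
  | add p q hp hq => simp only [map_add, hp, hq]
  | monomial t c =>
    have hc : (monomial t c : P d) = c • monomial t 1 := by rw [smul_monomial]; simp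
    rw [hc]
    simp only [map_smul]
    rw [red_monomial, Lam_monomial, Lam_monomial]
    congr 2
    ext x
    simp

theorem Lam_eq_of_eval {d k : ℕ} (h : Module.Dual (ZMod 2) (P d)) (p q : P d)
    (hpq : ∀ x : Fin d → ZMod 2, eval x p = eval x q) : Lam k h p = Lam k h q := by
  have h1 : red (p - q) = 0 := by
    apply MvPolynomial.eq_zero_of_eval_eq_zero
    · intro v
      rw [eval_red, map_sub, hpq, sub_self]
    · have := red_mem (p - q)
      simpa [ZMod.card] using this
  have h2 := Lam_red (k := k) h (p - q)
  rw [h1, map_zero, map_sub] at h2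
  exact (sub_eq_zero.mp h2.symm)

/-- The polynomial representing the invariant class. -/
noncomputable def inv (d k : ℕ) : P d :=
  ∑ S ∈ (Finset.univ : Finset (Finset (Fin d))).filter (fun S => S.Nonempty), W (lst k S)

/-- The associated function. -/
noncomputable def invF (d k : ℕ) : P d :=
  ∑ S ∈ (Finset.univ : Finset (Finset (Fin d))).filter (fun S => S.Nonempty),
    ((lst k S).map X).prod

theorem act_M {d : ℕ} (w : Matrix (Fin d) (Fin d) (ZMod 2)) (l : List (P d)) :
    act w (M l) = M (l.map (act w)) := by
  induction l with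
  | nil => simp [M]
  | cons a l ih => simp [M, ih]

theorem apply_act_inv {d n k : ℕ} (hk : 0 < k) (hdk : d ≤ k)
    {h : Module.Dual (ZMod 2) (P d)} (hh : h ∈ PH d n) (w : Matrix (Fin d) (Fin d) (ZMod 2)) :
    h (act w (inv d k)) = Lam k h (act w (invF d k)) := by
  rw [inv, invF, map_sum, map_sum, map_sum, map_sum]
  refine Finset.sum_congr rfl fun S hS => ?_
  have hS' : S.Nonempty := by simpa using hS
  have hcard : S.card ≤ k := by
    have := Finset.card_le_univ S
    simp at this
    omega
  have e : (lst k S).map (fun j => act w (X j)) =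
      ((lst k S).map (fun j => (fun i => w i j))).map lin := by
    rw [List.map_map]
    apply List.map_congr_left
    intro j _
    rw [act_X]
    rfl
  rw [W, act_M, List.map_map, map_list_prod, List.map_map]
  have e' : (lst k S).map (⇑(act w) ∘ X) = (lst k S).map (fun j => act w (X j)) := rfl
  rw [e', e]
  have := key_lin hk hh ((lst k S).map (fun j => (fun i => w i j))) [] (by
    rw [List.length_map, lst_length hS' hcard]; simp)
  simpa using this

theorem eval_act {d : ℕ} (w : Matrix (Fin d) (Fin d) (ZMod 2)) (x : Fin d → ZMod 2) (p : P d) :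
    eval x (act w p) = eval (Matrix.vecMul x w) p := by
  have : ((aeval x : P d →ₐ[ZMod 2] ZMod 2).comp (act w)) =
      (aeval (Matrix.vecMul x w) : P d →ₐ[ZMod 2] ZMod 2) := by
    apply MvPolynomial.algHom_ext
    intro j
    rw [AlgHom.comp_apply, act_X, map_sum, aeval_X, Matrix.vecMul, dotProduct]
    refine Finset.sum_congr rfl fun i _ => ?_
    rw [map_mul, aeval_X]
    simp
    ring
  have h := congrArg (fun g => g p) this
  simpa [aeval_eq_eval] using h

theorem eval_invF {d k : ℕ} (x : Fin d → ZMod 2) :
    eval x (invF d k) = if x = 0 then 0 else 1 := by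
  classical
  rw [invF, map_sum]
  have h1 : ∀ S ∈ (Finset.univ : Finset (Finset (Fin d))).filter (fun S => S.Nonempty),
      eval x ((lst k S).map X).prod =
        if S ⊆ Finset.univ.filter (fun i => x i ≠ 0) then (1 : ZMod 2) else 0 := by
    intro S hS
    have hS' : S.Nonempty := by simpa using hS
    rw [map_list_prod, List.map_map]
    have e : (lst k S).map (⇑(eval x) ∘ X) = (lst k S).map x := by
      apply List.map_congr_left
      intro j _
      simp
    rw [e]
    have h01 : ∀ y : ZMod 2, y ≠ 0 → y = 1 := by decide
    split_ifs with h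
    · apply List.prod_eq_one
      intro y hy
      obtain ⟨j, hj, rfl⟩ := List.mem_map.mp hy
      apply h01
      have : j ∈ S := by
        rw [← lst_toFinset (k := k) hS']
        simpa using hj
      have := h this
      simpa using this
    · rw [List.prod_eq_zero_iff]
      rw [Finset.not_subset] at h
      obtain ⟨j, hj, hj'⟩ := h
      rw [List.mem_map]
      refine ⟨j, ?_, by simpa using hj'⟩
      rw [← lst_toFinset (k := k) hS'] at hj
      simpa using hj
  rw [Finset.sum_congr rfl h1, ← Finset.sum_filter, Finset.sum_const]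
  have h2 : (((Finset.univ : Finset (Finset (Fin d))).filter (fun S => S.Nonempty)).filter
      (fun S => S ⊆ Finset.univ.filter (fun i => x i ≠ 0))) =
      (Finset.univ.filter (fun i => x i ≠ 0)).powerset.erase ∅ := by
    ext S
    simp [Finset.nonempty_iff_ne_empty, Finset.mem_erase]
  rw [h2, Finset.card_erase_of_mem (by simp), Finset.card_powerset, nsmul_eq_mul, mul_one]
  by_cases hx : x = 0
  · rw [if_pos hx, hx]
    simp
  · rw [if_neg hx]
    have : (Finset.univ.filter (fun i => x i ≠ 0)).card ≠ 0 := by
      intro hc
      apply hx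
      rw [Finset.card_eq_zero, Finset.filter_eq_empty_iff] at hc
      funext i
      have := hc (Finset.mem_univ i)
      simpa using this
    obtain ⟨m, hm⟩ := Nat.exists_eq_succ_of_ne_zero this
    rw [hm, Nat.cast_sub Nat.one_le_two_pow, Nat.cast_pow, pow_succ]
    have h2 : ((2 : ℕ) : ZMod 2) = 0 := by decide
    rw [h2]
    simp

theorem apply_act_inv_eq {d n k : ℕ} (hk : 0 < k) (hdk : d ≤ k)
    {h : Module.Dual (ZMod 2) (P d)} (hh : h ∈ PH d n) (w : GL (Fin d) (ZMod 2)) :
    h (act (w : Matrix _ _ _) (inv d k)) = h (inv d k) := by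
  have h1 := apply_act_inv hk hdk hh (1 : Matrix (Fin d) (Fin d) (ZMod 2))
  rw [act_one] at h1
  change h (inv d k) = Lam k h (invF d k) at h1
  rw [apply_act_inv hk hdk hh, h1]
  apply Lam_eq_of_eval
  intro x
  rw [eval_act, eval_invF, eval_invF]
  have hu : IsUnit (w : Matrix (Fin d) (Fin d) (ZMod 2)) := w.isUnit
  by_cases hx : x = 0
  · rw [hx, Matrix.zero_vecMul]
  · rw [if_neg hx, if_neg]
    intro hc
    apply hx
    have := Matrix.vecMul_injective_of_isUnit hu
    apply this
    simpa using hc

end Pool.Agent.Q136.Kameko
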