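import Pool.Agent.Q136.Kam5

namespace Pool.Agent.Q136.Kameko

open MvPolynomial

/-- The divided power monomial `a^(u)`, as the functional `coeff u`. -/
noncomputable abbrev cf {d : ℕ} (u : Fin d →₀ ℕ) : Module.Dual (ZMod 2) (P d) :=
  lcoeff (R := ZMod 2) u

theorem cf_apply {d : ℕ} (u : Fin d →₀ ℕ) (f : P d) : cf u f = coeff u f := rfl

theorem cf_mem_PH {d N : ℕ} {u : Fin d →₀ ℕ} (hN : u.degree = N)
    (hu : ∀ i, ∃ a, u i + 1 = 2 ^ a) : cf u ∈ PH d N := by
  constructor
  · intro t ht
    rw [cf_apply, coeff_monomial, if_neg]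
    intro h
    rw [h] at ht
    exact ht hN
  · intro k hk f
    induction f using MvPolynomial.induction_on' with
    | add p q hp hq => simp only [map_add, hp, hq, add_zero]
    | monomial t c =>
      have hc : (monomial t c : P d) = c • monomial t 1 := by rw [smul_monomial]; simp
      rw [hc]
      simp only [map_smul]
      rw [cf_apply, coeff_Sq_monomial]
      split_ifs with h
      · have : ∃ i ∈ (Finset.univ : Finset (Fin d)), u i - t i ≠ 0 := by
          by_contra hc
          push Not at hc
          have := Finset.sum_eq_zero hc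
          omega
        obtain ⟨i, _, hi⟩ := this
        obtain ⟨a, ha⟩ := hu i
        have h1 := h.1 i
        rw [Finset.prod_eq_zero (Finset.mem_univ i)
          (choose_even_of_add_eq a (t i) (u i - t i) (by omega) (by omega)), smul_zero]
      · simp

/-- `Rel` inside the functionals. -/
noncomputable def RelD (d n : ℕ) : Submodule (ZMod 2) (Module.Dual (ZMod 2) (P d)) :=
  (Rel d n).map (PH d n).subtype

theorem RelD_le_PH {d n : ℕ} {h : Module.Dual (ZMod 2) (P d)} (hh : h ∈ RelD d n) :
    h ∈ PH d n := by
  obtain ⟨x, _, rfl⟩ := hh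
  exact x.2

theorem mem_Rel_of {d n : ℕ} {h : PH d n} (hh : (h : Module.Dual (ZMod 2) (P d)) ∈ RelD d n) :
    h ∈ Rel d n := by
  obtain ⟨x, hx, hx'⟩ := hh
  have : x = h := Subtype.ext hx'
  rw [← this]
  exact hx

theorem sub_mem_RelD {d n : ℕ} {h : Module.Dual (ZMod 2) (P d)} (hh : h ∈ PH d n)
    (w : GL (Fin d) (ZMod 2)) :
    h.comp (act (w : Matrix _ _ _)).toLinearMap - h ∈ RelD d n :=
  ⟨actPH (w : Matrix _ _ _) ⟨h, hh⟩ - ⟨h, hh⟩, Submodule.subset_span ⟨w, ⟨h, hh⟩, rfl⟩, rfl⟩

theorem comp_mem_RelD {d n : ℕ} {h : Module.Dual (ZMod 2) (P d)} (hh : h ∈ RelD d n)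
    (w : GL (Fin d) (ZMod 2)) :
    h.comp (act (w : Matrix _ _ _)).toLinearMap ∈ RelD d n := by
  have := (RelD d n).add_mem (sub_mem_RelD (RelD_le_PH hh) w) hh
  simpa using this

/-- The transvection `x_b ↦ x_b + x_a` as an element of `GL_d`. -/
noncomputable def tv {d : ℕ} (a b : Fin d) (hab : a ≠ b) : GL (Fin d) (ZMod 2) :=
  Matrix.GeneralLinearGroup.mk'' (Matrix.transvection a b 1)
    (by rw [Matrix.det_transvection_of_ne _ _ hab]; exact isUnit_one)

theorem tv_coe {d : ℕ} (a b : Fin d) (hab : a ≠ b) :
    ((tv a b hab : GL (Fin d) (ZMod 2)) : Matrix (Fin d) (Fin d) (ZMod 2)) =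
      Matrix.transvection a b 1 := rfl

theorem cf_comp_tv {d : ℕ} (a b : Fin d) (hab : a ≠ b) (r : Fin d →₀ ℕ) (ha : r a = 0)
    (hb : r b = 0) (m : ℕ) :
    (cf (r + Finsupp.single a m)).comp
      (act ((tv a b hab : GL (Fin d) (ZMod 2)) : Matrix _ _ _)).toLinearMap =
      ∑ j ∈ Finset.range (m + 1), cf (r + Finsupp.single a (m - j) + Finsupp.single b j) := by
  apply (basisMonomials (Fin d) (ZMod 2)).ext
  intro t
  rw [coe_basisMonomials, tv_coe, LinearMap.comp_apply]
  change coeff (r + Finsupp.single a m) (act (Matrix.transvection a b 1) (monomial t 1)) = _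
  rw [LinearMap.sum_apply]
  -- the decomposition of `t`
  obtain ⟨t', h1, h2, h3⟩ : ∃ t' : Fin d →₀ ℕ, t' a = 0 ∧ t' b = 0 ∧
      t = t' + Finsupp.single a (t a) + Finsupp.single b (t b) := by
    refine ⟨(t.erase a).erase b, ?_, ?_, ?_⟩
    · rw [Finsupp.erase_ne hab, Finsupp.erase_same]
    · rw [Finsupp.erase_same]
    · ext i
      simp only [Finsupp.coe_add, Pi.add_apply, Finsupp.single_apply]
      by_cases hia : a = i
      · subst hia
        rw [Finsupp.erase_ne hab, Finsupp.erase_same, if_pos rfl, if_neg (Ne.symm hab)]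
        simp
      · by_cases hib : b = i
        · subst hib
          rw [Finsupp.erase_same, if_pos rfl, if_neg hia]
          simp
        · rw [if_neg hia, if_neg hib, Finsupp.erase_ne (Ne.symm hib),
            Finsupp.erase_ne (Ne.symm hia)]
          simp
  have hR : ∀ j ∈ Finset.range (m + 1),
      cf (r + Finsupp.single a (m - j) + Finsupp.single b j) (monomial t 1 : P d) =
        if j = t b then (if t' = r ∧ t a + t b = m then (1 : ZMod 2) else 0) else 0 := by
    intro j hj
    have hj' : j ≤ m := by simpa [Nat.lt_succ_iff] using hj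
    rw [cf_apply, coeff_monomial]
    by_cases hjb : j = t b
    · rw [if_pos hjb]
      by_cases hc : t' = r ∧ t a + t b = m
      · rw [if_pos hc, if_pos]
        rw [hjb, ← hc.1]
        conv_lhs => rw [h3]
        congr 3
        omega
      · rw [if_neg hc, if_neg]
        intro he
        apply hc
        have ea := DFunLike.congr_fun he a
        have eb := DFunLike.congr_fun he b
        simp only [Finsupp.coe_add, Pi.add_apply, Finsupp.single_apply, ha, hb] at ea eb
        simp only [if_true, if_neg (Ne.symm hab), if_neg hab] at ea eb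
        refine ⟨?_, by omega⟩
        have e2 : Finsupp.single a (t a) = (Finsupp.single a (m - j) : Fin d →₀ ℕ) := by
          congr 1
          omega
        have e3 : t' + Finsupp.single a (t a) + Finsupp.single b (t b) =
            r + Finsupp.single a (m - j) + Finsupp.single b j := h3.symm.trans he
        rw [e2, hjb] at e3
        exact add_right_cancel (add_right_cancel e3)
    · rw [if_neg hjb, if_neg]
      intro he
      apply hjb
      have eb := DFunLike.congr_fun he b
      simp only [Finsupp.coe_add, Pi.add_apply, Finsupp.single_apply, hb] at eb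
      simp only [if_true, if_neg hab] at eb
      omega
  rw [Finset.sum_congr rfl hR, Finset.sum_ite_eq']
  -- the left-hand side
  have hL : act (Matrix.transvection a b 1) (monomial t 1 : P d) =
      ∑ j ∈ Finset.range (t b + 1),
        monomial (t' + Finsupp.single a (t a + (t b - j)) + Finsupp.single b j)
          (((t b).choose j : ℕ) : ZMod 2) := by
    have e1 : (monomial t 1 : P d) = monomial t' 1 * X a ^ (t a) * X b ^ (t b) := by
      rw [X_pow_eq_monomial, X_pow_eq_monomial, monomial_mul, monomial_mul, ← h3]
      simp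
    have e2 : act (Matrix.transvection a b 1) (monomial t' 1) = (monomial t' 1 : P d) := by
      rw [monomial_eq_prod, map_prod]
      refine Finset.prod_congr rfl fun i _ => ?_
      rw [map_pow, act_transvection_X a b hab]
      split_ifs with h
      · rw [h, h2, pow_zero, pow_zero]
      · rfl
    rw [e1, map_mul, map_mul, e2, map_pow, map_pow, act_transvection_X a b hab,
      act_transvection_X a b hab, if_neg hab, if_pos rfl, add_pow, Finset.mul_sum]
    refine Finset.sum_congr rfl fun j hj => ?_
    have : (((t b).choose j : ℕ) : P d) = C (((t b).choose j : ℕ) : ZMod 2) := by simp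
    rw [this, X_pow_eq_monomial, X_pow_eq_monomial, X_pow_eq_monomial, C_apply, monomial_mul,
      monomial_mul, monomial_mul, monomial_mul]
    congr 1
    · rw [Finsupp.single_add]
      refine congrArg _ ?_
      simp only [add_zero]
      abel
    · simp
  rw [hL, coeff_sum]
  have hL2 : ∀ j ∈ Finset.range (t b + 1),
      coeff (r + Finsupp.single a m)
        (monomial (t' + Finsupp.single a (t a + (t b - j)) + Finsupp.single b j)
          (((t b).choose j : ℕ) : ZMod 2)) =
        if j = 0 then (if t' = r ∧ t a + t b = m then (1 : ZMod 2) else 0) else 0 := by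
    intro j hj
    rw [coeff_monomial]
    by_cases hj0 : j = 0
    · rw [if_pos hj0, hj0]
      by_cases hc : t' = r ∧ t a + t b = m
      · rw [if_pos hc, if_pos]
        · simp
        · rw [hc.1, Nat.sub_zero, hc.2]
          simp
      · rw [if_neg hc, if_neg]
        intro he
        apply hc
        have ea := DFunLike.congr_fun he a
        simp only [Finsupp.coe_add, Pi.add_apply, Finsupp.single_apply, ha, h1] at ea
        simp only [if_true, if_neg (Ne.symm hab)] at ea
        refine ⟨?_, by omega⟩
        have e2 : t a + (t b - 0) = m := by omega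
        rw [e2] at he
        simpa using he
    · rw [if_neg hj0, if_neg]
      intro he
      apply hj0
      have eb := DFunLike.congr_fun he b
      simp only [Finsupp.coe_add, Pi.add_apply, Finsupp.single_apply, hb, h2] at eb
      simp only [if_true, if_neg hab] at eb
      omega
  rw [Finset.sum_congr rfl hL2, Finset.sum_ite_eq', if_pos (by simp)]
  by_cases hc : t' = r ∧ t a + t b = m
  · rw [if_pos hc, if_pos]
    rw [Finset.mem_range]
    omega
  · rw [if_neg hc]
    simp

end Pool.Agent.Q136.Kameko
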