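import Pool.Agent.Q136.Kam6

namespace Pool.Agent.Q136.Kameko

open MvPolynomial

theorem degree_add_single {d : ℕ} (r : Fin d →₀ ℕ) (a : Fin d) (m : ℕ) :
    (r + Finsupp.single a m).degree = r.degree + m := by
  rw [map_add, Finsupp.degree_single]

/-- spike exponents -/
def Spike {d : ℕ} (u : Fin d →₀ ℕ) : Prop := ∀ i, ∃ a, u i + 1 = 2 ^ a

theorem spike_add {d : ℕ} {r : Fin d →₀ ℕ} (hr : Spike r) {a : Fin d} (ha : r a = 0) {m : ℕ}
    (hm : ∃ c, m + 1 = 2 ^ c) : Spike (r + Finsupp.single a m) := by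
  intro i
  rw [Finsupp.add_apply, Finsupp.single_apply]
  by_cases h : a = i
  · subst h
    rw [if_pos rfl, ha, zero_add]
    exact hm
  · rw [if_neg h, add_zero]
    exact hr i

theorem single_ne_apply {d : ℕ} {r : Fin d →₀ ℕ} {a b : Fin d} (h : a ≠ b) (hb : r b = 0)
    (m : ℕ) : (r + Finsupp.single a m) b = 0 := by
  rw [Finsupp.add_apply, Finsupp.single_apply, if_neg h, hb, add_zero]

/-- Step A. -/
theorem stepA {d N : ℕ} {r : Fin d →₀ ℕ} (hr : Spike r) {p q l : Fin d} (hpq : p ≠ q)
    (hpl : p ≠ l) (hql : q ≠ l) (hp : r p = 0) (hq : r q = 0) (hl : r l = 0)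
    (hN : r.degree + 4 = N) :
    cf (r + Finsupp.single p 3 + Finsupp.single q 1) ∈ RelD d N := by
  have hs : Spike (r + Finsupp.single p 3) := spike_add hr hp ⟨2, rfl⟩
  have hl' := single_ne_apply (m := 3) hpl hl
  have hq' := single_ne_apply (m := 3) hpq hq
  have h1 : cf (r + Finsupp.single p 3 + Finsupp.single l 1) ∈ PH d N := by
    apply cf_mem_PH
    · rw [degree_add_single, degree_add_single]; omega
    · exact spike_add hs hl' ⟨1, rfl⟩
  have h2 := sub_mem_RelD h1 (tv l q hql.symm)
  rw [cf_comp_tv l q hql.symm _ hl' hq'] at h2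
  rw [Finset.sum_range_succ, Finset.sum_range_one] at h2
  simpa using h2

/-- Step B. -/
theorem stepB {d N : ℕ} {r : Fin d →₀ ℕ} (hr : Spike r) {p q l m : Fin d} (hpq : p ≠ q)
    (hpl : p ≠ l) (hql : q ≠ l) (hpm : p ≠ m) (hqm : q ≠ m) (hlm : l ≠ m)
    (hp : r p = 0) (hq : r q = 0) (hl : r l = 0) (hm : r m = 0)
    (hN : r.degree + 4 = N) :
    cf (r + Finsupp.single m 1 + Finsupp.single p 2 + Finsupp.single q 1) +
      cf (r + Finsupp.single m 1 + Finsupp.single p 1 + Finsupp.single q 2) ∈ RelD d N := by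
  have hp' := single_ne_apply (m := 1) hpm.symm hp
  have hq' := single_ne_apply (m := 1) hqm.symm hq
  have a1 := stepA hr hpm hpl hlm.symm hp hm hl hN
  have a2 := stepA hr hqm hql hlm.symm hq hm hl hN
  have a3 := comp_mem_RelD a1 (tv p q hpq)
  have e1 : r + Finsupp.single p 3 + Finsupp.single m 1 =
      r + Finsupp.single m 1 + Finsupp.single p 3 := by abel
  have e2 : r + Finsupp.single q 3 + Finsupp.single m 1 =
      r + Finsupp.single m 1 + Finsupp.single q 3 := by abel
  rw [e1] at a1 a3
  rw [e2] at a2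
  rw [cf_comp_tv p q hpq _ hp' hq'] at a3
  rw [Finset.sum_range_succ, Finset.sum_range_succ, Finset.sum_range_succ,
    Finset.sum_range_one] at a3
  have := (RelD d N).sub_mem ((RelD d N).sub_mem a3 a1) a2
  convert this using 1
  simp only [Nat.sub_zero, Finsupp.single_zero, add_zero, Nat.sub_self]
  have : 3 - 1 = 2 := rfl
  rw [this]
  have : 3 - 2 = 1 := rfl
  rw [this]
  abel

/-- Step C. -/
theorem stepC {d N : ℕ} {r : Fin d →₀ ℕ} (hr : Spike r) {p q l m : Fin d} (hpq : p ≠ q)
    (hpl : p ≠ l) (hql : q ≠ l) (hpm : p ≠ m) (hqm : q ≠ m) (hlm : l ≠ m)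
    (hp : r p = 0) (hq : r q = 0) (hl : r l = 0) (hm : r m = 0)
    (hN : r.degree + 4 = N) :
    cf (r + Finsupp.single m 1 + Finsupp.single p 1 + Finsupp.single q 1 +
      Finsupp.single l 1) ∈ RelD d N := by
  have b1 := stepB hr hpq hpl hql hpm hqm hlm hp hq hl hm hN
  have b2 := stepB hr hpl hpq hql.symm hpm hlm hqm hp hl hq hm hN
  have b3 := comp_mem_RelD b1 (tv q l hql)
  have hq1 := single_ne_apply (m := 1) hqm.symm hq
  have hl1 := single_ne_apply (m := 1) hlm.symm hl
  rw [LinearMap.add_comp,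
    cf_comp_tv q l hql _ (single_ne_apply (m := 2) hpq hq1) (single_ne_apply (m := 2) hpl hl1),
    cf_comp_tv q l hql _ (single_ne_apply (m := 1) hpq hq1)
      (single_ne_apply (m := 1) hpl hl1)] at b3
  simp only [Finset.sum_range_succ, Finset.sum_range_zero, zero_add] at b3
  have := (RelD d N).sub_mem ((RelD d N).sub_mem b3 b1) b2
  convert this using 1
  simp only [Nat.sub_zero, Finsupp.single_zero, add_zero, Nat.sub_self]
  have : 2 - 1 = 1 := rfl
  simp only [this]
  abel

theorem cf_mem_RelD {d N : ℕ} {s : Fin d →₀ ℕ} (hs : Spike s) {p q l m : Fin d} (hpq : p ≠ q)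
    (hpl : p ≠ l) (hql : q ≠ l) (hpm : p ≠ m) (hqm : q ≠ m) (hlm : l ≠ m)
    (hp : s p = 1) (hq : s q = 1) (hl : s l = 1) (hm : s m = 1)
    (hN : s.degree = N) : cf s ∈ RelD d N := by
  obtain ⟨r, hr⟩ : ∃ r : Fin d →₀ ℕ, s = r + Finsupp.single m 1 + Finsupp.single p 1 +
      Finsupp.single q 1 + Finsupp.single l 1 := by
    refine ⟨s - (Finsupp.single m 1 + Finsupp.single p 1 + Finsupp.single q 1 +
      Finsupp.single l 1), ?_⟩
    have hle : Finsupp.single m 1 + Finsupp.single p 1 + Finsupp.single q 1 +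
        Finsupp.single l 1 ≤ s := by
      intro i
      simp only [Finsupp.add_apply, Finsupp.single_apply]
      by_cases h1 : m = i
      · subst h1; simp [hpm, hqm, hlm, hm]
      · by_cases h2 : p = i
        · subst h2; simp [hpq.symm, hpl.symm, hpm.symm, hp]
        · by_cases h3 : q = i
          · subst h3; simp [hpq, hql.symm, hqm.symm, hq]
          · by_cases h4 : l = i
            · subst h4; simp [hpl, hql, hlm.symm, hl]
            · simp [h1, h2, h3, h4]
    have := tsub_add_cancel_of_le hle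
    generalize s - (Finsupp.single m 1 + Finsupp.single p 1 + Finsupp.single q 1 +
        Finsupp.single l 1) = r at this ⊢
    rw [← this]
    abel
  have hp0 : r p = 0 := by
    have := hp
    rw [hr] at this
    simp only [Finsupp.add_apply, Finsupp.single_apply] at this
    simp [hpq.symm, hpl.symm, hpm.symm] at this
    exact this
  have hq0 : r q = 0 := by
    have := hq
    rw [hr] at this
    simp only [Finsupp.add_apply, Finsupp.single_apply] at this
    simp [hpq, hql.symm, hqm.symm] at this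
    exact this
  have hl0 : r l = 0 := by
    have := hl
    rw [hr] at this
    simp only [Finsupp.add_apply, Finsupp.single_apply] at this
    simp [hpl, hql, hlm.symm] at this
    exact this
  have hm0 : r m = 0 := by
    have := hm
    rw [hr] at this
    simp only [Finsupp.add_apply, Finsupp.single_apply] at this
    simp [hpm, hqm, hlm] at this
    exact this
  have hsr : Spike r := by
    intro i
    by_cases h : r i = 0
    · exact ⟨0, by rw [h]; rfl⟩
    · have h1 : s i = r i := by
        rw [hr]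
        simp only [Finsupp.add_apply, Finsupp.single_apply]
        have : m ≠ i := by rintro rfl; exact h hm0
        have : p ≠ i := by rintro rfl; exact h hp0
        have : q ≠ i := by rintro rfl; exact h hq0
        have : l ≠ i := by rintro rfl; exact h hl0
        simp [*]
      rw [← h1]
      exact hs i
  rw [hr]
  apply stepC hsr hpq hpl hql hpm hqm hlm hp0 hq0 hl0 hm0
  rw [← hN, hr]
  simp only [degree_add_single]

theorem cf_comp_kap {d : ℕ} (s : Fin d →₀ ℕ) : (cf s).comp (kap d) = cf (dbl s) := by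
  apply LinearMap.ext
  intro f
  exact coeff_kap s f

theorem degree_dbl {d : ℕ} (s : Fin d →₀ ℕ) : (dbl s).degree = d + 2 * s.degree := by
  rw [Finsupp.degree_eq_sum, Finsupp.degree_eq_sum]
  simp only [dbl_apply]
  rw [Finset.sum_add_distrib, ← Finset.mul_sum]
  simp [add_comm]

/-- The coefficient of `x_0^n` in the invariant class is `1`. -/
theorem cf_inv {d k : ℕ} (i0 : Fin d) (hdk : d ≤ k) :
    cf (Finsupp.single i0 (2 ^ k - 1)) (inv d k) = 1 := by
  rw [inv, map_sum, Finset.sum_eq_single {i0}]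
  · have h1 : (lst k ({i0} : Finset (Fin d))) = List.replicate k i0 := by
      apply List.eq_replicate_iff.mpr
      refine ⟨?_, ?_⟩
      · apply lst_length (by simp)
        have := i0.isLt
        simp
        omega
      · intro b hb
        have h2 := lst_toFinset (k := k) (S := ({i0} : Finset (Fin d))) (by simp)
        have : b ∈ (lst k ({i0} : Finset (Fin d))).toFinset := by simpa using hb
        rw [h2] at this
        simpa using this
    rw [h1]
    have h2 : ∀ k : ℕ, W (List.replicate k i0) = (X i0 : P d) ^ (2 ^ k - 1) := by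
      intro k
      induction k with
      | zero => simp [W, M]
      | succ k ih =>
        rw [List.replicate_succ, W_cons, ih, ← pow_mul, ← pow_succ']
        congr 1
        have := Nat.one_le_two_pow (n := k)
        rw [pow_succ]
        omega
    rw [h2, X_pow_eq_monomial, cf_apply, coeff_monomial, if_pos rfl]
  · intro S hS hne
    have hS' : S.Nonempty := by simpa using hS
    obtain ⟨j, hj, hji⟩ : ∃ j ∈ S, j ≠ i0 := by
      by_contra hc
      push Not at hc
      apply hne
      exact Finset.eq_singleton_iff_nonempty_unique_mem.mpr ⟨hS', hc⟩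
    have hj' : j ∈ lst k S := by
      rw [← lst_toFinset (k := k) hS'] at hj
      simpa using hj
    have hdvd : ∀ l : List (Fin d), j ∈ l → (X j : P d) ∣ W l := by
      intro l hl
      induction l with
      | nil => simp at hl
      | cons a l ih =>
        rw [W_cons]
        rcases List.mem_cons.mp hl with h | h
        · rw [h]; exact Dvd.intro _ rfl
        · exact Dvd.dvd.mul_left (dvd_pow (ih h) (by norm_num)) _
    obtain ⟨c, hc⟩ := hdvd _ hj'
    rw [hc, cf_apply, coeff_X_mul', if_neg]
    rw [Finsupp.mem_support_iff, Finsupp.single_apply, if_neg (Ne.symm hji)]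
    simp
  · intro h
    exfalso
    apply h
    simp

theorem spike_single {d : ℕ} (i0 : Fin d) (k : ℕ) :
    Spike (Finsupp.single i0 (2 ^ k - 1) : Fin d →₀ ℕ) := by
  intro i
  rw [Finsupp.single_apply]
  split_ifs
  · exact ⟨k, by have := Nat.one_le_two_pow (n := k); omega⟩
  · exact ⟨0, rfl⟩

theorem spike_dbl {d : ℕ} {s : Fin d →₀ ℕ} (hs : Spike s) : Spike (dbl s) := by
  intro i
  obtain ⟨a, ha⟩ := hs i
  exact ⟨a + 1, by rw [dbl_apply, pow_succ]; omega⟩

/-- For `d ≥ 5` and `k ≥ d` Kameko's squaring operation is not injective in degree `2^k - 1`. -/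
theorem not_injective_large (d k : ℕ) (hd : 5 ≤ d) (hdk : d ≤ k) :
    ¬ Function.Injective (kamCoinv d (2 ^ k - 1)) := by
  obtain ⟨e, rfl⟩ : ∃ e, d = e + 5 := ⟨d - 5, by omega⟩
  have hmem : cf (Finsupp.single (0 : Fin (e + 5)) (2 ^ k - 1)) ∈ PH (e + 5) (2 ^ k - 1) :=
    cf_mem_PH (Finsupp.degree_single _ _) (spike_single 0 k)
  apply not_injective_of ⟨_, hmem⟩
  · intro hrel
    -- evaluate at the invariant class
    have h1 : ∀ x ∈ Rel (e + 5) (2 ^ k - 1), x.1 (inv (e + 5) k) = 0 := by
      intro x hx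
      rw [Rel] at hx
      induction hx using Submodule.span_induction with
      | mem x hx =>
        obtain ⟨w, h, rfl⟩ := hx
        change h.1 (act (w : Matrix _ _ _) (inv (e + 5) k)) - h.1 (inv (e + 5) k) = 0
        rw [apply_act_inv_eq (by omega) hdk h.2, sub_self]
      | zero => simp
      | add x y _ _ hx hy =>
        change x.1 (inv (e + 5) k) + y.1 (inv (e + 5) k) = 0
        rw [hx, hy, add_zero]
      | smul c x _ hx =>
        change c • x.1 (inv (e + 5) k) = 0
        rw [hx, smul_zero]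
    have h2 := h1 _ hrel
    change cf (Finsupp.single (0 : Fin (e + 5)) (2 ^ k - 1)) (inv (e + 5) k) = 0 at h2
    rw [cf_inv 0 hdk] at h2
    exact one_ne_zero h2
  · apply mem_Rel_of
    change (cf (Finsupp.single (0 : Fin (e + 5)) (2 ^ k - 1))).comp (kap (e + 5)) ∈ _
    rw [cf_comp_kap]
    have h0 : ∀ i : Fin (e + 5), i ≠ 0 →
        dbl (Finsupp.single (0 : Fin (e + 5)) (2 ^ k - 1)) i = 1 := by
      intro i hi
      rw [dbl_apply, Finsupp.single_apply, if_neg (Ne.symm hi), mul_zero, zero_add]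
    have f1 : (⟨1, by omega⟩ : Fin (e + 5)) ≠ 0 := by simp [Fin.ext_iff]
    have f2 : (⟨2, by omega⟩ : Fin (e + 5)) ≠ 0 := by simp [Fin.ext_iff]
    have f3 : (⟨3, by omega⟩ : Fin (e + 5)) ≠ 0 := by simp [Fin.ext_iff]
    have f4 : (⟨4, by omega⟩ : Fin (e + 5)) ≠ 0 := by simp [Fin.ext_iff]
    apply cf_mem_RelD (spike_dbl (spike_single _ _)) (p := ⟨1, by omega⟩) (q := ⟨2, by omega⟩)
      (l := ⟨3, by omega⟩) (m := ⟨4, by omega⟩)
    · simp
    · simp
    · simp
    · simp
    · simp
    · simp
    · exact h0 _ f1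
    · exact h0 _ f2
    · exact h0 _ f3
    · exact h0 _ f4
    · rw [degree_dbl, Finsupp.degree_single]

/-- For `d ≥ 4` Kameko's squaring operation is not injective in degree `0`. -/
theorem not_injective_zero (d : ℕ) (hd : 4 ≤ d) : ¬ Function.Injective (kamCoinv d 0) := by
  obtain ⟨e, rfl⟩ : ∃ e, d = e + 4 := ⟨d - 4, by omega⟩
  have hmem : cf (0 : Fin (e + 4) →₀ ℕ) ∈ PH (e + 4) 0 :=
    cf_mem_PH (by simp) (fun i => ⟨0, rfl⟩)
  apply not_injective_of ⟨_, hmem⟩
  · intro hrel
    have h1 : ∀ x ∈ Rel (e + 4) 0, x.1 (1 : P (e + 4)) = 0 := by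
      intro x hx
      rw [Rel] at hx
      induction hx using Submodule.span_induction with
      | mem x hx =>
        obtain ⟨w, h, rfl⟩ := hx
        change h.1 (act (w : Matrix _ _ _) (1 : P (e + 4))) - h.1 (1 : P (e + 4)) = 0
        rw [map_one, sub_self]
      | zero => simp
      | add x y _ _ hx hy =>
        change x.1 (1 : P (e + 4)) + y.1 (1 : P (e + 4)) = 0
        rw [hx, hy, add_zero]
      | smul c x _ hx =>
        change c • x.1 (1 : P (e + 4)) = 0
        rw [hx, smul_zero]
    have h2 := h1 _ hrel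
    change coeff (0 : Fin (e + 4) →₀ ℕ) (1 : P (e + 4)) = 0 at h2
    rw [coeff_one, if_pos rfl] at h2
    exact one_ne_zero h2
  · apply mem_Rel_of
    change (cf (0 : Fin (e + 4) →₀ ℕ)).comp (kap (e + 4)) ∈ _
    rw [cf_comp_kap]
    apply cf_mem_RelD (spike_dbl (fun i => ⟨0, rfl⟩)) (p := ⟨0, by omega⟩) (q := ⟨1, by omega⟩)
      (l := ⟨2, by omega⟩) (m := ⟨3, by omega⟩)
    · simp
    · simp
    · simp
    · simp
    · simp
    · simp
    · rfl
    · rfl
    · rfl
    · rfl
    · rw [degree_dbl]
      simp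

end Pool.Agent.Q136.Kameko
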