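import Mathlib

/-!
# Kameko's squaring operation on coinvariants

Let `P_d = F_2[x_1, ..., x_d]`.  An element of the dual of `P_d` is written as the function
`h : (Fin d → ℕ) → ZMod 2` of its values `h t` on the monomials `x^t`; so `h` is the (possibly
infinite) combination `∑ t, h t • a^(t)` of the divided power monomials `a^(t)`.
-/

namespace Pool.Agent.Q136.KamekoDef

open MvPolynomial

/-- Functionals on `P_d`, given by their values on monomials. -/
abbrev Fn (d : ℕ) := (Fin d → ℕ) → ZMod 2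

/-- The value of the functional `h` at a polynomial `f`. -/
noncomputable def pair {d : ℕ} (h : Fn d) (f : MvPolynomial (Fin d) (ZMod 2)) : ZMod 2 :=
  ∑ s ∈ f.support, f.coeff s * h s

/-- The dual Steenrod operation `Sq^k_*`; it is the transpose of
`Sq^k (x^t) = ∑_{m_1 + ... + m_d = k} (∏ i, (t_i choose m_i)) x^(t+m)`. -/
def sqDual {d : ℕ} (k : ℕ) (h : Fn d) : Fn d := fun t =>
  ∑ m ∈ Finset.Nat.antidiagonalTuple d k, ((∏ i, (t i).choose (m i) : ℕ) : ZMod 2) * h (t + m)

/-- The right action of a matrix `w`: `(h w)(f) = h (w f)` where `w x_j = ∑ i, w i j • x_i`. -/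
noncomputable def actDual {d : ℕ} (w : Matrix (Fin d) (Fin d) (ZMod 2)) (h : Fn d) : Fn d :=
  fun t => pair h (∏ j, (∑ i, C (w i j) * X i) ^ t j)

/-- Kameko's map: `a^(s) ↦ a^(2s+1)`. -/
def kam {d : ℕ} (h : Fn d) : Fn d := fun t =>
  if ∀ i, Odd (t i) then h (fun i => (t i - 1) / 2) else 0

/-- `PH_n`: the elements of degree `n` annihilated by all `Sq^k_*`, `k > 0`. -/
def PH (d n : ℕ) : AddSubgroup (Fn d) where
  carrier := {h | (∀ t, ∑ i, t i ≠ n → h t = 0) ∧ ∀ k, 0 < k → sqDual k h = 0}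
  zero_mem' := ⟨fun _ _ => rfl, fun k _ => by funext t; simp [sqDual]⟩
  add_mem' := by
    rintro a b ⟨ha, ha'⟩ ⟨hb, hb'⟩
    refine ⟨fun t ht => by simp [ha t ht, hb t ht], fun k hk => ?_⟩
    have h1 : sqDual k (a + b) = sqDual k a + sqDual k b := by
      funext t
      simp [sqDual, mul_add, Finset.sum_add_distrib]
    rw [h1, ha' k hk, hb' k hk, add_zero]
  neg_mem' := by
    rintro a ⟨ha, ha'⟩
    refine ⟨fun t ht => by simp [ha t ht], fun k hk => ?_⟩
    have h1 : sqDual k (-a) = - sqDual k a := by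
      funext t
      simp [sqDual]
    rw [h1, ha' k hk, neg_zero]

/-- The subgroup of `PH_n` generated by all `h w - h` with `h ∈ PH_n` and `w ∈ GL_d(F_2)`. -/
def Rel (d n : ℕ) : AddSubgroup (PH d n) :=
  AddSubgroup.closure {x | ∃ w : GL (Fin d) (ZMod 2), ∃ h : PH d n,
    (x : Fn d) = actDual (w : Matrix (Fin d) (Fin d) (ZMod 2)) (h : Fn d) - (h : Fn d)}

/-- The coinvariants `F_2 ⊗_{GL_d} PH_n`. -/
abbrev Coinv (d n : ℕ) := PH d n ⧸ Rel d n

/-- `f` is Kameko's squaring operation on coinvariants, that is, `f` sends the class of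
`h ∈ PH_n` to the class of `kam h ∈ PH_{d+2n}`. -/
def IsKamekoSquaring (d n : ℕ) (f : Coinv d n → Coinv d (d + 2 * n)) : Prop :=
  ∀ (h : PH d n) (h' : PH d (d + 2 * n)), (h' : Fn d) = kam (h : Fn d) →
    f (QuotientAddGroup.mk h) = QuotientAddGroup.mk h'

end Pool.Agent.Q136.KamekoDef
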