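import Pool.Agent.Q136.Kam7
import Pool.Agent.Q136.KamDef

namespace Pool.Agent.Q136.KamekoDef

open MvPolynomial
open Pool.Agent.Q136

/-- The values of a functional on monomials. -/
noncomputable def toFn {d : ℕ} (h : Module.Dual (ZMod 2) (Kameko.P d)) : Fn d :=
  fun t => h (monomial (Finsupp.equivFunOnFinite.symm t) 1)

theorem toFn_injective {d : ℕ} : Function.Injective (toFn (d := d)) := by
  intro h h' hh
  apply (basisMonomials (Fin d) (ZMod 2)).ext
  intro t
  rw [coe_basisMonomials]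
  have := congrFun hh t
  simpa [toFn] using this

theorem toFn_surjective {d : ℕ} : Function.Surjective (toFn (d := d)) := by
  intro h
  refine ⟨(basisMonomials (Fin d) (ZMod 2)).constr (ZMod 2) fun t => h t, ?_⟩
  funext t
  rw [toFn]
  have h1 : (monomial (Finsupp.equivFunOnFinite.symm t) 1 : Kameko.P d) =
      (basisMonomials (Fin d) (ZMod 2)) (Finsupp.equivFunOnFinite.symm t) := by
    rw [coe_basisMonomials]
  rw [h1, Module.Basis.constr_basis]
  rfl

theorem toFn_add {d : ℕ} (h h' : Module.Dual (ZMod 2) (Kameko.P d)) :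
    toFn (h + h') = toFn h + toFn h' := rfl

theorem toFn_sub {d : ℕ} (h h' : Module.Dual (ZMod 2) (Kameko.P d)) :
    toFn (h - h') = toFn h - toFn h' := rfl

theorem toFn_zero {d : ℕ} : toFn (0 : Module.Dual (ZMod 2) (Kameko.P d)) = 0 := rfl

theorem toFn_neg {d : ℕ} (h : Module.Dual (ZMod 2) (Kameko.P d)) :
    toFn (-h) = - toFn h := rfl

theorem pair_toFn {d : ℕ} (h : Module.Dual (ZMod 2) (Kameko.P d)) (f : Kameko.P d) :
    pair (toFn h) f = h f := by
  conv_rhs => rw [f.as_sum, map_sum]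
  rw [pair]
  refine Finset.sum_congr rfl fun s _ => ?_
  have : (monomial s (coeff s f) : Kameko.P d) = coeff s f • monomial s 1 := by
    rw [smul_monomial]; simp
  rw [this, map_smul, smul_eq_mul, toFn]
  congr 2
  simp

theorem actDual_toFn {d : ℕ} (w : Matrix (Fin d) (Fin d) (ZMod 2))
    (h : Module.Dual (ZMod 2) (Kameko.P d)) :
    actDual w (toFn h) = toFn (h.comp (Kameko.act w).toLinearMap) := by
  funext t
  rw [actDual, pair_toFn, toFn]
  change h _ = h (Kameko.act w (monomial (Finsupp.equivFunOnFinite.symm t) 1))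
  congr 1
  rw [Kameko.monomial_eq_prod, map_prod]
  refine Finset.prod_congr rfl fun j _ => ?_
  rw [map_pow, Kameko.act_X]
  rfl

theorem kam_toFn {d : ℕ} (h : Module.Dual (ZMod 2) (Kameko.P d)) :
    kam (toFn h) = toFn (h.comp (Kameko.kap d)) := by
  funext t
  rw [kam, toFn, toFn, LinearMap.comp_apply, Kameko.kap_monomial]
  by_cases ht : ∀ i, Odd (t i)
  · have ht' : ∀ i, Odd ((Finsupp.equivFunOnFinite.symm t) i) := ht
    rw [if_pos ht, if_pos ht']
    have e : Finsupp.mapRange (fun a => (a - 1) / 2) rfl (Finsupp.equivFunOnFinite.symm t) =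
        Finsupp.equivFunOnFinite.symm (fun i => (t i - 1) / 2) := by
      ext i
      simp
    rw [e]
  · have ht' : ¬ ∀ i, Odd ((Finsupp.equivFunOnFinite.symm t) i) := ht
    rw [if_neg ht, if_neg ht']
    simp

theorem sqDual_toFn {d : ℕ} (k : ℕ) (h : Module.Dual (ZMod 2) (Kameko.P d)) :
    sqDual k (toFn h) = toFn (h.comp (Kameko.Sq d k)) := by
  funext t
  rw [sqDual, toFn, LinearMap.comp_apply, Kameko.Sq_monomial, map_sum]
  have h1 : ∀ m : Fin d → ℕ, h (if ∑ i, m i = k then
      (monomial (Finsupp.equivFunOnFinite.symm t + Finsupp.equivFunOnFinite.symm m)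
        (∏ i, ((((Finsupp.equivFunOnFinite.symm t) i).choose (m i) : ℕ) : ZMod 2)) :
          Kameko.P d) else 0) =
      if ∑ i, m i = k then ((∏ i, (t i).choose (m i) : ℕ) : ZMod 2) * toFn h (t + m) else 0 := by
    intro m
    split_ifs
    · have : (monomial (Finsupp.equivFunOnFinite.symm t + Finsupp.equivFunOnFinite.symm m)
        (∏ i, ((((Finsupp.equivFunOnFinite.symm t) i).choose (m i) : ℕ) : ZMod 2)) :
          Kameko.P d) = (∏ i, (((t i).choose (m i) : ℕ) : ZMod 2)) •
            monomial (Finsupp.equivFunOnFinite.symm (t + m)) 1 := by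
        rw [smul_monomial, smul_eq_mul, mul_one]
        have e : (Finsupp.equivFunOnFinite.symm t + Finsupp.equivFunOnFinite.symm m :
            Fin d →₀ ℕ) = Finsupp.equivFunOnFinite.symm (t + m) := by
          ext i
          simp
        rw [e]
        rfl
      rw [this, map_smul, smul_eq_mul, Nat.cast_prod]
      rfl
    · simp
  rw [Finset.sum_congr rfl (fun m _ => h1 m), ← Finset.sum_filter]
  symm
  apply Finset.sum_subset_zero_on_sdiff
  · intro m hm
    rw [Finset.mem_filter] at hm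
    rw [Finset.Nat.mem_antidiagonalTuple]
    exact hm.2
  · intro m hm
    rw [Finset.mem_sdiff, Finset.Nat.mem_antidiagonalTuple, Finset.mem_filter] at hm
    have : ∃ i, t i < m i := by
      by_contra hc
      push Not at hc
      apply hm.2
      refine ⟨?_, hm.1⟩
      rw [Fintype.mem_piFinset]
      intro i
      rw [Finset.mem_range]
      have := hc i
      exact Nat.lt_succ_of_le this
    obtain ⟨i, hi⟩ := this
    rw [Finset.prod_eq_zero (Finset.mem_univ i) (Nat.choose_eq_zero_of_lt hi)]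
    simp
  · intro m _
    rfl

theorem toFn_mem_PH {d n : ℕ} {h : Module.Dual (ZMod 2) (Kameko.P d)} :
    toFn h ∈ PH d n ↔ h ∈ Kameko.PH d n := by
  constructor
  · rintro ⟨h1, h2⟩
    refine ⟨?_, ?_⟩
    · intro t ht
      have := h1 t (by
        rw [Finsupp.degree_eq_sum] at ht
        exact ht)
      simpa [toFn] using this
    · intro k hk f
      have := h2 k hk
      rw [sqDual_toFn, ← toFn_zero] at this
      have := toFn_injective this
      exact congrArg (fun g => g f) this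
  · rintro ⟨h1, h2⟩
    refine ⟨?_, ?_⟩
    · intro t ht
      apply h1
      rw [Finsupp.degree_eq_sum]
      exact ht
    · intro k hk
      rw [sqDual_toFn, ← toFn_zero]
      congr 1
      apply LinearMap.ext
      intro f
      exact h2 k hk f

theorem mem_Rel_of_mem_RelD {d n : ℕ} {h : Module.Dual (ZMod 2) (Kameko.P d)}
    (hh : h ∈ Kameko.RelD d n) {x : PH d n} (hx : (x : Fn d) = toFn h) : x ∈ Rel d n := by
  have key : ∀ y : Kameko.PH d n, y ∈ Kameko.Rel d n →
      ∀ x : PH d n, (x : Fn d) = toFn y.1 → x ∈ Rel d n := by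
    intro y hy
    rw [Kameko.Rel] at hy
    induction hy using Submodule.span_induction with
    | mem y hy =>
      obtain ⟨w, h, rfl⟩ := hy
      intro x hx
      apply AddSubgroup.subset_closure
      refine ⟨w, ⟨toFn h.1, toFn_mem_PH.mpr h.2⟩, ?_⟩
      rw [hx, actDual_toFn]
      rfl
    | zero =>
      intro x hx
      have : x = 0 := Subtype.ext hx
      rw [this]
      exact (Rel d n).zero_mem
    | add y z _ _ hy hz =>
      intro x hx
      have h1 := hy ⟨toFn y.1, toFn_mem_PH.mpr y.2⟩ rfl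
      have h2 := hz ⟨toFn z.1, toFn_mem_PH.mpr z.2⟩ rfl
      have : x = ⟨toFn y.1, toFn_mem_PH.mpr y.2⟩ + ⟨toFn z.1, toFn_mem_PH.mpr z.2⟩ :=
        Subtype.ext hx
      rw [this]
      exact (Rel d n).add_mem h1 h2
    | smul c y _ hy =>
      intro x hx
      have h01 : ∀ c : ZMod 2, c = 0 ∨ c = 1 := by decide
      rcases h01 c with hc | hc
      · have : x = 0 := by
          apply Subtype.ext
          rw [hx, hc, zero_smul]
          rfl
        rw [this]
        exact (Rel d n).zero_mem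
      · apply hy
        rw [hx, hc, one_smul]
  obtain ⟨y, hy, rfl⟩ := hh
  exact key y hy x hx

theorem mem_RelD_of_mem_Rel {d n : ℕ} {x : PH d n} (hx : x ∈ Rel d n) :
    ∃ h ∈ Kameko.RelD d n, (x : Fn d) = toFn h := by
  rw [Rel] at hx
  induction hx using AddSubgroup.closure_induction with
  | mem x hx =>
    obtain ⟨w, h, hh⟩ := hx
    obtain ⟨g, hg⟩ := toFn_surjective (h : Fn d)
    have hg' : g ∈ Kameko.PH d n := by
      rw [← toFn_mem_PH, hg]
      exact h.2
    refine ⟨_, Kameko.sub_mem_RelD hg' w, ?_⟩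
    rw [hh, toFn_sub, ← actDual_toFn, hg]
  | zero => exact ⟨0, (Kameko.RelD d n).zero_mem, rfl⟩
  | add x y _ _ hx hy =>
    obtain ⟨a, ha, ha'⟩ := hx
    obtain ⟨b, hb, hb'⟩ := hy
    refine ⟨a + b, (Kameko.RelD d n).add_mem ha hb, ?_⟩
    rw [toFn_add, ← ha', ← hb']
    rfl
  | neg x _ hx =>
    obtain ⟨a, ha, ha'⟩ := hx
    refine ⟨-a, (Kameko.RelD d n).neg_mem ha, ?_⟩
    rw [toFn_neg, ← ha']
    rfl

theorem kam_mem_PH {d n : ℕ} (h : PH d n) : kam (h : Fn d) ∈ PH d (d + 2 * n) := by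
  obtain ⟨g, hg⟩ := toFn_surjective (h : Fn d)
  have hg' : g ∈ Kameko.PH d n := by
    rw [← toFn_mem_PH, hg]
    exact h.2
  rw [← hg, kam_toFn, toFn_mem_PH]
  exact Kameko.kap_mem_PH hg'

theorem kam_sub {d : ℕ} (h h' : Fn d) : kam (h - h') = kam h - kam h' := by
  funext t
  simp only [kam, Pi.sub_apply]
  split_ifs <;> simp

/-- Kameko's map as a map `PH_n → PH_{d+2n}`. -/
def kamP (d n : ℕ) (h : PH d n) : PH d (d + 2 * n) := ⟨kam (h : Fn d), kam_mem_PH h⟩

theorem kamP_sub_mem {d n : ℕ} {x y : PH d n} (hxy : x - y ∈ Rel d n) :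
    kamP d n x - kamP d n y ∈ Rel d (d + 2 * n) := by
  obtain ⟨g, hg, hg'⟩ := mem_RelD_of_mem_Rel hxy
  obtain ⟨z, hz, rfl⟩ := hg
  have h1 := Kameko.Rel_le_comap hz
  rw [Submodule.mem_comap] at h1
  apply mem_Rel_of_mem_RelD (h := (Kameko.kamPH d n z).1) ⟨_, h1, rfl⟩
  change kam (x : Fn d) - kam (y : Fn d) = toFn (z.1.comp (Kameko.kap d))
  rw [← kam_toFn, ← kam_sub]
  congr 1

theorem existsUnique_kameko (d n : ℕ) :
    ∃! f : Coinv d n → Coinv d (d + 2 * n), IsKamekoSquaring d n f := by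
  have hwell : ∀ x y : PH d n, (QuotientAddGroup.mk x : Coinv d n) = QuotientAddGroup.mk y →
      (QuotientAddGroup.mk (kamP d n x) : Coinv d (d + 2 * n)) =
        QuotientAddGroup.mk (kamP d n y) := by
    intro x y hxy
    rw [QuotientAddGroup.eq] at hxy ⊢
    have h1 : x - y ∈ Rel d n := by
      have := (Rel d n).neg_mem hxy
      convert this using 1
      abel
    have := (Rel d (d + 2 * n)).neg_mem (kamP_sub_mem h1)
    convert this using 1
    abel
  refine ⟨fun c => QuotientAddGroup.mk (kamP d n (Quotient.out c)), ?_, ?_⟩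
  · intro h h' hh
    have h1 : h' = kamP d n h := Subtype.ext hh
    rw [h1]
    apply hwell
    exact Quotient.out_eq _
  · intro f hf
    funext c
    obtain ⟨x, rfl⟩ := QuotientAddGroup.mk_surjective c
    rw [hf x (kamP d n x) rfl]
    symm
    apply hwell
    exact Quotient.out_eq _

theorem not_injective_aux {d n : ℕ} (g : Module.Dual (ZMod 2) (Kameko.P d))
    (h1 : g ∈ Kameko.PH d n) (h2 : g ∉ Kameko.RelD d n)
    (h3 : g.comp (Kameko.kap d) ∈ Kameko.RelD d (d + 2 * n))
    (f : Coinv d n → Coinv d (d + 2 * n)) (hf : IsKamekoSquaring d n f) :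
    ¬ Function.Injective f := by
  intro hinj
  let x : PH d n := ⟨toFn g, toFn_mem_PH.mpr h1⟩
  have e1 : f (QuotientAddGroup.mk x) = f (QuotientAddGroup.mk 0) := by
    rw [hf x (kamP d n x) rfl, hf 0 0 (by
      funext t
      simp only [ZeroMemClass.coe_zero, kam, Pi.zero_apply]
      split_ifs <;> rfl)]
    rw [QuotientAddGroup.mk_zero, QuotientAddGroup.eq_zero_iff]
    apply mem_Rel_of_mem_RelD h3
    exact kam_toFn g
  have e2 := hinj e1
  rw [QuotientAddGroup.mk_zero, QuotientAddGroup.eq_zero_iff] at e2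
  obtain ⟨g', hg', hg''⟩ := mem_RelD_of_mem_Rel e2
  have : g = g' := toFn_injective hg''
  rw [this] at h2
  exact h2 hg'

theorem RelD_apply_eq_zero {d n : ℕ} {h : Module.Dual (ZMod 2) (Kameko.P d)}
    (hh : h ∈ Kameko.RelD d n) (p : Kameko.P d)
    (hp : ∀ g ∈ Kameko.PH d n, ∀ w : GL (Fin d) (ZMod 2),
      g (Kameko.act (w : Matrix _ _ _) p) = g p) : h p = 0 := by
  obtain ⟨x, hx, rfl⟩ := hh
  have hx' : x ∈ Kameko.Rel d n := hx
  change x.1 p = 0
  clear hx
  rw [Kameko.Rel] at hx'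
  induction hx' using Submodule.span_induction with
  | mem x hx =>
    obtain ⟨w, h, rfl⟩ := hx
    change h.1 (Kameko.act (w : Matrix _ _ _) p) - h.1 p = 0
    rw [hp _ h.2, sub_self]
  | zero => rfl
  | add x y _ _ hx hy =>
    change x.1 p + y.1 p = 0
    rw [hx, hy, add_zero]
  | smul c x _ hx =>
    change c • x.1 p = 0
    rw [hx, smul_zero]

theorem not_injective_large (d k : ℕ) (hd : 5 ≤ d) (hdk : d ≤ k)
    (f : Coinv d (2 ^ k - 1) → Coinv d (d + 2 * (2 ^ k - 1)))
    (hf : IsKamekoSquaring d (2 ^ k - 1) f) : ¬ Function.Injective f := by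
  obtain ⟨e, rfl⟩ : ∃ e, d = e + 5 := ⟨d - 5, by omega⟩
  have hmem : Kameko.cf (Finsupp.single (0 : Fin (e + 5)) (2 ^ k - 1)) ∈
      Kameko.PH (e + 5) (2 ^ k - 1) :=
    Kameko.cf_mem_PH (Finsupp.degree_single _ _) (Kameko.spike_single 0 k)
  refine not_injective_aux _ hmem ?_ ?_ f hf
  · intro hrel
    have h2 := RelD_apply_eq_zero hrel (Kameko.inv (e + 5) k) (fun g hg w =>
      Kameko.apply_act_inv_eq (by omega) hdk hg w)
    rw [Kameko.cf_inv 0 hdk] at h2
    exact one_ne_zero h2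
  · rw [Kameko.cf_comp_kap]
    have h0 : ∀ i : Fin (e + 5), i ≠ 0 →
        Kameko.dbl (Finsupp.single (0 : Fin (e + 5)) (2 ^ k - 1)) i = 1 := by
      intro i hi
      rw [Kameko.dbl_apply, Finsupp.single_apply, if_neg (Ne.symm hi), mul_zero, zero_add]
    have f1 : (⟨1, by omega⟩ : Fin (e + 5)) ≠ 0 := by simp [Fin.ext_iff]
    have f2 : (⟨2, by omega⟩ : Fin (e + 5)) ≠ 0 := by simp [Fin.ext_iff]
    have f3 : (⟨3, by omega⟩ : Fin (e + 5)) ≠ 0 := by simp [Fin.ext_iff]
    have f4 : (⟨4, by omega⟩ : Fin (e + 5)) ≠ 0 := by simp [Fin.ext_iff]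
    apply Kameko.cf_mem_RelD (Kameko.spike_dbl (Kameko.spike_single _ _)) (p := ⟨1, by omega⟩)
      (q := ⟨2, by omega⟩) (l := ⟨3, by omega⟩) (m := ⟨4, by omega⟩)
    · simp
    · simp
    · simp
    · simp
    · simp
    · simp
    · exact h0 _ f1
    · exact h0 _ f2
    · exact h0 _ f3
    · exact h0 _ f4
    · rw [Kameko.degree_dbl, Finsupp.degree_single]

theorem not_injective_zero (d : ℕ) (hd : 4 ≤ d) (f : Coinv d 0 → Coinv d (d + 2 * 0))
    (hf : IsKamekoSquaring d 0 f) : ¬ Function.Injective f := by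
  obtain ⟨e, rfl⟩ : ∃ e, d = e + 4 := ⟨d - 4, by omega⟩
  have hmem : Kameko.cf (0 : Fin (e + 4) →₀ ℕ) ∈ Kameko.PH (e + 4) 0 :=
    Kameko.cf_mem_PH (by simp) (fun i => ⟨0, rfl⟩)
  refine not_injective_aux _ hmem ?_ ?_ f hf
  · intro hrel
    have h2 := RelD_apply_eq_zero hrel (1 : Kameko.P (e + 4)) (fun g hg w => by rw [map_one])
    change coeff (0 : Fin (e + 4) →₀ ℕ) (1 : Kameko.P (e + 4)) = 0 at h2
    rw [coeff_one, if_pos rfl] at h2
    exact one_ne_zero h2
  · rw [Kameko.cf_comp_kap]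
    apply Kameko.cf_mem_RelD (Kameko.spike_dbl (fun i => ⟨0, rfl⟩)) (p := ⟨0, by omega⟩)
      (q := ⟨1, by omega⟩) (l := ⟨2, by omega⟩) (m := ⟨3, by omega⟩)
    · simp
    · simp
    · simp
    · simp
    · simp
    · simp
    · rfl
    · rfl
    · rfl
    · rfl
    · rw [Kameko.degree_dbl]
      simp

end Pool.Agent.Q136.KamekoDef
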