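import Mathlib

/-!
# Local structure of poset modules

`k` is a field, `C` a poset, a `C`-module is a functor `M : C ⥤ ModuleCat k`.
-/

namespace Pool.Agent.Q136.LocStr

open CategoryTheory

/-- The structure map `φ_{xy} : M(x) → M(y)` for `x ≤ y`. -/
abbrev phi {k C : Type} [Field k] [PartialOrder C] (M : C ⥤ ModuleCat.{0} k) {x y : C}
    (h : x ≤ y) : M.obj x →ₗ[k] M.obj y := (M.map (homOfLE h)).hom

/-- A multi-flag of `V`: a set of subspaces containing `0` and `V`, closed under intersection. -/
def IsMultiFlag {k V : Type} [Field k] [AddCommGroup V] [Module k V]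
    (S : Set (Submodule k V)) : Prop :=
  ⊥ ∈ S ∧ ⊤ ∈ S ∧ ∀ U ∈ S, ∀ W ∈ S, U ⊓ W ∈ S

/-- The multi-flag generated by a set of subspaces. -/
def gen {k V : Type} [Field k] [AddCommGroup V] [Module k V]
    (T : Set (Submodule k V)) : Set (Submodule k V) :=
  {W | ∀ S : Set (Submodule k V), IsMultiFlag S → T ⊆ S → W ∈ S}

/-- The multi-flags `F^F_n(M)(x)`: `F^F_0(M)(x)` is generated by the kernels `ker φ_{xy}`, the
images `im φ_{zx}` and `F x`; `F^F_{n+1}(M)(x)` by all preimages and images along the structure
maps of the subspaces in the `F^F_n(M)(y)`. -/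
def relFlag {k C : Type} [Field k] [PartialOrder C] (M : C ⥤ ModuleCat.{0} k)
    (F : ∀ x : C, Set (Submodule k (M.obj x))) : ℕ → ∀ x : C, Set (Submodule k (M.obj x))
  | 0, x => gen ({W | ∃ (y : C) (h : x ≤ y), W = LinearMap.ker (phi M h)} ∪
      {W | ∃ (z : C) (h : z ≤ x), W = LinearMap.range (phi M h)} ∪ F x)
  | n + 1, x => gen ({W | ∃ (y : C) (h : x ≤ y), ∃ U ∈ relFlag M F n y, W = U.comap (phi M h)} ∪
      {W | ∃ (z : C) (h : z ≤ x), ∃ U ∈ relFlag M F n z, W = U.map (phi M h)})

/-- `M` has stable local structure. -/
def Stable {k C : Type} [Field k] [PartialOrder C] (M : C ⥤ ModuleCat.{0} k) : Prop :=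
  ∀ x : C, ∃ N : ℕ, ∀ n : ℕ, N ≤ n →
    relFlag M (fun _ => ∅) n x = relFlag M (fun _ => ∅) (n + 1) x

/-- `M` has strongly stable local structure. -/
def StronglyStable {k C : Type} [Field k] [PartialOrder C] (M : C ⥤ ModuleCat.{0} k) : Prop :=
  ∀ F : ∀ x : C, Set (Submodule k (M.obj x)), (∀ x, (F x).Finite ∧ IsMultiFlag (F x)) →
    ∃ N : ℕ, ∀ x : C, (⋃ n : ℕ, relFlag M F n x) = relFlag M F N x

/-! ### General lemmas -/

section
variable {k V : Type} [Field k] [AddCommGroup V] [Module k V]

theorem subset_gen (T : Set (Submodule k V)) : T ⊆ gen T := fun _ hW _ _ hS => hS hW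

theorem isMultiFlag_gen (T : Set (Submodule k V)) : IsMultiFlag (gen T) :=
  ⟨fun _ hS _ => hS.1, fun _ hS _ => hS.2.1,
    fun _ hU _ hW S hS hT => hS.2.2 _ (hU S hS hT) _ (hW S hS hT)⟩

theorem gen_subset {T S : Set (Submodule k V)} (hS : IsMultiFlag S) (h : T ⊆ S) : gen T ⊆ S :=
  fun _ hW => hW S hS h

theorem gen_finite {T : Set (Submodule k V)} (hT : T.Finite) : (gen T).Finite := by
  have h1 : ((fun A : Set (Submodule k V) => sInf A) '' (𝒫 (insert ⊥ T))).Finite :=
    ((hT.insert ⊥).finite_subsets).image _
  apply h1.subset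
  apply gen_subset
  · refine ⟨⟨{⊥}, by simp, by simp⟩, ⟨∅, by simp, by simp⟩, ?_⟩
    rintro _ ⟨A, hA, rfl⟩ _ ⟨B, hB, rfl⟩
    exact ⟨A ∪ B, Set.union_subset hA hB, sInf_union⟩
  · intro W hW
    exact ⟨{W}, by simp [hW], by simp⟩

end

theorem relFlag_finite {k C : Type} [Field k] [PartialOrder C] [Finite C]
    (M : C ⥤ ModuleCat.{0} k) (F : ∀ x : C, Set (Submodule k (M.obj x)))
    (hF : ∀ x, (F x).Finite) (n : ℕ) : ∀ x : C, (relFlag M F n x).Finite := by
  induction n with
  | zero =>
    intro x
    apply gen_finite
    refine Set.Finite.union (Set.Finite.union ?_ ?_) (hF x)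
    · have : {W | ∃ (y : C) (h : x ≤ y), W = LinearMap.ker (phi M h)} =
          ⋃ y : C, ⋃ h : x ≤ y, {LinearMap.ker (phi M h)} := by
        ext W; simp
      rw [this]
      exact Set.finite_iUnion fun y => Set.finite_iUnion fun h => Set.finite_singleton _
    · have : {W | ∃ (z : C) (h : z ≤ x), W = LinearMap.range (phi M h)} =
          ⋃ z : C, ⋃ h : z ≤ x, {LinearMap.range (phi M h)} := by
        ext W; simp
      rw [this]
      exact Set.finite_iUnion fun y => Set.finite_iUnion fun h => Set.finite_singleton _
  | succ n ih =>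
    intro x
    apply gen_finite
    refine Set.Finite.union ?_ ?_
    · have : {W | ∃ (y : C) (h : x ≤ y), ∃ U ∈ relFlag M F n y, W = U.comap (phi M h)} =
          ⋃ y : C, ⋃ h : x ≤ y, (fun U => U.comap (phi M h)) '' (relFlag M F n y) := by
        ext W
        simp only [Set.mem_ofPred_eq, Set.mem_iUnion, Set.mem_image, eq_comm]
      rw [this]
      exact Set.finite_iUnion fun y => Set.finite_iUnion fun h => (ih y).image _
    · have : {W | ∃ (z : C) (h : z ≤ x), ∃ U ∈ relFlag M F n z, W = U.map (phi M h)} =
          ⋃ z : C, ⋃ h : z ≤ x, (fun U => U.map (phi M h)) '' (relFlag M F n z) := by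
        ext W
        simp only [Set.mem_ofPred_eq, Set.mem_iUnion, Set.mem_image, eq_comm]
      rw [this]
      exact Set.finite_iUnion fun y => Set.finite_iUnion fun h => (ih y).image _

/-! ### The crown poset and the module -/

/-- The crown poset: `a false, a true < b false, b true`; `(false, i)` are the lower and
`(true, j)` the upper elements. -/
inductive Crown : Type
  | a (i : Bool) : Crown
  | b (j : Bool) : Crown
  deriving DecidableEq

/-- The order relation: lower elements are below upper elements. -/
def Crown.le : Crown → Crown → Prop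
  | .a i, .a j => i = j
  | .a _, .b _ => True
  | .b _, .a _ => False
  | .b i, .b j => i = j

instance : PartialOrder Crown where
  le := Crown.le
  le_refl := by rintro (_ | _) <;> simp [Crown.le]
  le_trans := by
    rintro (_ | _) (_ | _) (_ | _) <;> simp [Crown.le] <;> intro h1 h2 <;> simp_all
  le_antisymm := by
    rintro (_ | _) (_ | _) <;> simp [Crown.le]
    all_goals intro h _; exact h

instance : Finite Crown := by
  have : Function.Surjective (fun p : Bool × Bool => if p.1 then Crown.a p.2 else Crown.b p.2) := by
    rintro (i | i)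
    · exact ⟨(true, i), rfl⟩
    · exact ⟨(false, i), rfl⟩
  exact Finite.of_surjective _ this

instance : IsConnected Crown := by
  have : Nonempty Crown := ⟨Crown.a false⟩
  apply zigzag_isConnected
  have hab : ∀ i j, Zigzag (Crown.a i) (Crown.b j) := fun i j =>
    Zigzag.of_hom (homOfLE (show Crown.a i ≤ Crown.b j from trivial))
  have hba : ∀ i j, Zigzag (Crown.b j) (Crown.a i) := fun i j =>
    Zigzag.of_inv (homOfLE (show Crown.a i ≤ Crown.b j from trivial))
  rintro (i | i) (j | j)
  · exact (hab i false).trans (hba j false)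
  · exact hab i j
  · exact hba j i
  · exact (hba false i).trans (hab false j)

/-- The structure maps of the example: the identity of `k^2`, except for
`φ_{a true, b true} = diag(t, 1)`. -/
def cmap {k : Type} [Field k] (t : k) : Crown → Crown → (Fin 2 → k) →ₗ[k] (Fin 2 → k)
  | .a true, .b true => Matrix.toLin' (Matrix.diagonal ![t, 1])
  | _, _ => LinearMap.id

theorem cmap_self {k : Type} [Field k] (t : k) (x : Crown) : cmap t x x = LinearMap.id := by
  rcases x with (_ | _) | (_ | _) <;> rfl

theorem cmap_comp {k : Type} [Field k] (t : k) {x y z : Crown} (h1 : x ≤ y) (h2 : y ≤ z) :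
    cmap t x z = (cmap t y z).comp (cmap t x y) := by
  have : x = y ∨ y = z := by
    rcases x with i | i <;> rcases y with j | j <;> rcases z with l | l
    · left; exact congrArg _ h1
    · left; exact congrArg _ h1
    · exact absurd h2 (fun h => h)
    · right; exact congrArg _ h2
    · exact absurd h1 (fun h => h)
    · exact absurd h1 (fun h => h)
    · exact absurd h2 (fun h => h)
    · right; exact congrArg _ h2
  rcases this with rfl | rfl
  · rw [cmap_self]; rfl
  · rw [cmap_self]; rfl

/-- The module of the example. -/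
def crownModule {k : Type} [Field k] (t : k) : Crown ⥤ ModuleCat.{0} k where
  obj _ := ModuleCat.of k (Fin 2 → k)
  map {x y} _ := ModuleCat.ofHom (cmap t x y)
  map_id x := by rw [cmap_self]; rfl
  map_comp f g := by rw [cmap_comp t (leOfHom f) (leOfHom g)]; rfl

theorem phi_crown {k : Type} [Field k] (t : k) {x y : Crown} (h : x ≤ y) :
    phi (crownModule t) h = cmap t x y := rfl

theorem cmap_bijective {k : Type} [Field k] (t : k) (ht : t ≠ 0) (x y : Crown) :
    Function.Bijective (cmap t x y) := by
  have hT : Function.Bijective (Matrix.toLin' (Matrix.diagonal ![t, 1])) := by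
    have hdet : IsUnit (Matrix.diagonal ![t, 1]).det := by
      rw [Matrix.det_diagonal, Fin.prod_univ_two]
      simpa using ht
    have h1 : IsUnit (Matrix.diagonal ![t, 1]) := (Matrix.isUnit_iff_isUnit_det _).mpr hdet
    constructor
    · exact Matrix.mulVec_injective_of_isUnit h1
    · exact Matrix.mulVec_surjective_iff_isUnit.mpr h1
  rcases x with (_ | _) | (_ | _) <;> rcases y with (_ | _) | (_ | _) <;>
    first
    | exact Function.bijective_id
    | exact hT

theorem stable_crown {k : Type} [Field k] (t : k) (ht : t ≠ 0) : Stable (crownModule t) := by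
  have hflag : ∀ x : Crown, IsMultiFlag ({⊥, ⊤} : Set (Submodule k ((crownModule t).obj x))) := by
    intro x
    refine ⟨by simp, by simp, ?_⟩
    rintro U (rfl | rfl) W (rfl | rfl) <;> simp
  have key : ∀ (n : ℕ) (x : Crown),
      relFlag (crownModule t) (fun _ => ∅) n x = {⊥, ⊤} := by
    intro n
    induction n with
    | zero =>
      intro x
      apply Set.Subset.antisymm
      · apply gen_subset (hflag x)
        rintro W ((⟨y, h, rfl⟩ | ⟨z, h, rfl⟩) | h)
        · left
          rw [phi_crown]
          exact LinearMap.ker_eq_bot.mpr (cmap_bijective t ht x y).1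
        · right
          rw [phi_crown]
          exact LinearMap.range_eq_top.mpr (cmap_bijective t ht z x).2
        · exact absurd h (by simp)
      · rintro W (rfl | rfl)
        · exact (isMultiFlag_gen _).1
        · exact (isMultiFlag_gen _).2.1
    | succ n ih =>
      intro x
      apply Set.Subset.antisymm
      · apply gen_subset (hflag x)
        rintro W (⟨y, h, U, hU, rfl⟩ | ⟨z, h, U, hU, rfl⟩)
        · rw [ih] at hU
          rw [phi_crown]
          rcases hU with rfl | rfl
          · left
            exact LinearMap.ker_eq_bot.mpr (cmap_bijective t ht x y).1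
          · right
            rfl
        · rw [ih] at hU
          rw [phi_crown]
          rcases hU with rfl | rfl
          · left
            exact Submodule.map_bot _
          · right
            exact (Submodule.map_top _).trans
              (LinearMap.range_eq_top.mpr (cmap_bijective t ht z x).2)
      · rintro W (rfl | rfl)
        · exact (isMultiFlag_gen _).1
        · exact (isMultiFlag_gen _).2.1
  intro x
  exact ⟨0, fun n _ => by rw [key, key]⟩

/-- The line spanned by `(s, 1)`. -/
def line {k : Type} [Field k] (s : k) : Submodule k (Fin 2 → k) := k ∙ (![s, 1] : Fin 2 → k)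

theorem line_injective {k : Type} [Field k] {s s' : k} (h : line s = line s') : s = s' := by
  have h1 : (![s, 1] : Fin 2 → k) ∈ line s' := by
    rw [← h]; exact Submodule.mem_span_singleton_self _
  obtain ⟨c, hc⟩ := Submodule.mem_span_singleton.mp h1
  have e0 := congrFun hc 0
  have e1 := congrFun hc 1
  simp at e0 e1
  rw [e1, one_mul] at e0
  exact e0.symm

theorem map_line {k : Type} [Field k] (t s : k) :
    (line s).map (cmap t (Crown.a true) (Crown.b true)) = line (t * s) := by
  rw [line, Submodule.map_span, Set.image_singleton, line]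
  congr 2
  funext i
  change (Matrix.diagonal ![t, 1]).mulVec ![s, 1] i = ![t * s, 1] i
  rw [Matrix.mulVec_diagonal]
  fin_cases i <;> simp

theorem step {k : Type} [Field k] (t s : k)
    (F : ∀ x : Crown, Set (Submodule k ((crownModule t).obj x))) (n : ℕ)
    (h : line s ∈ relFlag (crownModule t) F n (Crown.a false)) :
    line (t * s) ∈ relFlag (crownModule t) F (n + 4) (Crown.a false) := by
  have h1 : line s ∈ relFlag (crownModule t) F (n + 1) (Crown.b false) := by
    apply subset_gen
    right
    refine ⟨Crown.a false, trivial, _, h, ?_⟩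
    exact (Submodule.map_id _).symm
  have h2 : line s ∈ relFlag (crownModule t) F (n + 2) (Crown.a true) := by
    apply subset_gen
    left
    refine ⟨Crown.b false, trivial, _, h1, ?_⟩
    exact (Submodule.comap_id _).symm
  have h3 : line (t * s) ∈ relFlag (crownModule t) F (n + 3) (Crown.b true) := by
    apply subset_gen
    right
    refine ⟨Crown.a true, trivial, _, h2, ?_⟩
    exact (map_line t s).symm
  apply subset_gen
  left
  refine ⟨Crown.b true, trivial, _, h3, ?_⟩
  exact (Submodule.comap_id _).symm

/-- The multi-flag `{0, V, L}`. -/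
def flag3 {k V : Type} [Field k] [AddCommGroup V] [Module k V] (L : Submodule k V) :
    Set (Submodule k V) := {⊥, ⊤, L}

theorem flag3_prop {k V : Type} [Field k] [AddCommGroup V] [Module k V] (L : Submodule k V) :
    (flag3 L).Finite ∧ IsMultiFlag (flag3 L) := by
  refine ⟨by simp [flag3], by simp [flag3], by simp [flag3], ?_⟩
  rintro U (rfl | rfl | rfl) W (rfl | rfl | rfl) <;> simp [flag3]

theorem flag3_mem {k V : Type} [Field k] [AddCommGroup V] [Module k V] (L : Submodule k V) :
    L ∈ flag3 L := by simp [flag3]

theorem not_stronglyStable_crown {k : Type} [Field k] (t : k) (ht : t ≠ 0)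
    (ht' : ∀ n : ℕ, 0 < n → t ^ n ≠ 1) : ¬ StronglyStable (crownModule t) := by
  classical
  intro hS
  obtain ⟨F, hF1, hF2⟩ : ∃ F : ∀ x : Crown, Set (Submodule k ((crownModule t).obj x)),
      (∀ x, (F x).Finite ∧ IsMultiFlag (F x)) ∧ line 1 ∈ F (Crown.a false) := by
    exact ⟨fun x => flag3 (V := Fin 2 → k) (line 1), fun x => flag3_prop _, flag3_mem _⟩
  obtain ⟨N, hN⟩ := hS F hF1
  have hmem : ∀ n : ℕ, line (t ^ n) ∈ relFlag (crownModule t) F (4 * n) (Crown.a false) := by
    intro n
    induction n with
    | zero =>
      rw [pow_zero]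
      apply subset_gen
      right
      exact hF2
    | succ n ih =>
      rw [pow_succ']
      exact step t _ F _ ih
  have hfin := relFlag_finite (crownModule t) F (fun x => (hF1 x).1) N (Crown.a false)
  rw [← hN (Crown.a false)] at hfin
  have hinj : Function.Injective (fun n : ℕ => line (t ^ n)) := by
    intro m n hmn
    have h1 : t ^ m = t ^ n := line_injective hmn
    rcases lt_trichotomy m n with h | h | h
    · exfalso
      apply ht' (n - m) (by omega)
      have : t ^ m * t ^ (n - m) = t ^ m * 1 := by
        rw [← pow_add, mul_one, h1]; congr 1; omega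
      exact mul_left_cancel₀ (pow_ne_zero _ ht) this
    · exact h
    · exfalso
      apply ht' (m - n) (by omega)
      have : t ^ n * t ^ (m - n) = t ^ n * 1 := by
        rw [← pow_add, mul_one, ← h1]; congr 1; omega
      exact mul_left_cancel₀ (pow_ne_zero _ ht) this
  apply Set.infinite_range_of_injective hinj
  apply hfin.subset
  rintro _ ⟨n, rfl⟩
  exact Set.mem_iUnion.mpr ⟨4 * n, hmem n⟩

end Pool.Agent.Q136.LocStr
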