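import Mathlib

/-!
# Configuration spaces of graphs with sinks
-/

namespace Pool.Agent.Q136.Sinks

open Topology

/-- A finite graph with `m` vertices and `n` edges, the edge `e` running from `src e` to `tgt e`
(multiple edges and loops allowed). -/
structure Graph where
  m : ℕ
  n : ℕ
  src : Fin n → Fin m
  tgt : Fin n → Fin m

/-- The gluing of the ends of the edges to the vertices. -/
inductive Glue (G : Graph) :
    Fin G.m ⊕ (Fin G.n × unitInterval) → Fin G.m ⊕ (Fin G.n × unitInterval) → Prop
  | src (e : Fin G.n) : Glue G (Sum.inr (e, 0)) (Sum.inl (G.src e))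
  | tgt (e : Fin G.n) : Glue G (Sum.inr (e, 1)) (Sum.inl (G.tgt e))

/-- The graph as a topological space (a finite `1`-dimensional CW complex): the quotient of
`V ⊔ (E × [0,1])`, with `V` and `E` discrete. -/
def Real (G : Graph) : Type := Quot (Glue G)

instance (G : Graph) : TopologicalSpace (Real G) := inferInstanceAs (TopologicalSpace (Quot _))

/-- The vertices as points of the space. -/
def vertex (G : Graph) (v : Fin G.m) : Real G := Quot.mk _ (Sum.inl v)

/-- The point of the edge `e` with parameter `t`. -/
def edge (G : Graph) (e : Fin G.n) (t : unitInterval) : Real G := Quot.mk _ (Sum.inr (e, t))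

/-- `F_k(Γ, S)`, a subspace of `Γ^k`. -/
def F (G : Graph) (S : Set (Fin G.m)) (k : ℕ) : Type :=
  {x : Fin k → Real G // ∀ i j, i ≠ j → x i = x j → ∃ v ∈ S, x i = vertex G v}

instance (G : Graph) (S : Set (Fin G.m)) (k : ℕ) : TopologicalSpace (F G S k) :=
  inferInstanceAs (TopologicalSpace (Subtype _))

/-- `B_k(Γ, S)`, the quotient of `F_k(Γ, S)` by the symmetric group. -/
def B (G : Graph) (S : Set (Fin G.m)) (k : ℕ) : Type :=
  Quot (fun x y : F G S k => ∃ σ : Equiv.Perm (Fin k), y.1 = x.1 ∘ σ)

instance (G : Graph) (S : Set (Fin G.m)) (k : ℕ) : TopologicalSpace (B G S k) :=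
  inferInstanceAs (TopologicalSpace (Quot _))

/-- `X` is aspherical: the homotopy groups `π_n(X, x)`, `n ≥ 2`, vanish at every point. -/
def Aspherical (X : Type) [TopologicalSpace X] : Prop :=
  ∀ (x : X) (n : ℕ), 2 ≤ n → Subsingleton (HomotopyGroup.Pi n X x)

/-- The graph with one vertex and three loops. -/
abbrev bouquet : Graph where
  m := 1
  n := 3
  src := fun _ => 0
  tgt := fun _ => 0

abbrev BB := B bouquet Set.univ 2

/-- The `i`-th coordinate `Γ → ℝ/ℤ`. -/
noncomputable def rho (i : Fin 3) : Real bouquet → AddCircle (1 : ℝ) :=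
  Quot.lift (fun z => match z with
    | Sum.inl _ => 0
    | Sum.inr (e, t) => if (e : Fin 3) = i then ((t : ℝ) : AddCircle (1 : ℝ)) else 0) (by
    rintro _ _ (e | e)
    · simp
    · have h : ((1 : ℝ) : AddCircle (1 : ℝ)) = 0 := AddCircle.coe_period 1
      simp [h])

theorem rho_edge (i e : Fin 3) (t : unitInterval) :
    rho i (edge bouquet e t) = if e = i then ((t : ℝ) : AddCircle (1 : ℝ)) else 0 := rfl

theorem continuous_rho (i : Fin 3) : Continuous (rho i) := by
  apply continuous_quot_lift
  rw [continuous_sum_dom]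
  constructor
  · exact continuous_const
  · have h : ∀ e : Fin 3, Continuous (fun t : unitInterval =>
        if e = i then ((t : ℝ) : AddCircle (1 : ℝ)) else 0) := by
      intro e
      split_ifs
      · exact (AddCircle.continuous_mk' (1 : ℝ)).comp continuous_subtype_val
      · exact continuous_const
    exact continuous_prod_of_discrete_left.mpr h

theorem rho_cases (z : Real bouquet) : ∃ j : Fin 3, ∀ i, i ≠ j → rho i z = 0 := by
  induction z using Quot.ind with
  | mk z =>
    rcases z with v | ⟨e, t⟩
    · exact ⟨0, fun i _ => rfl⟩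
    · refine ⟨e, fun i hi => ?_⟩
      change rho i (edge bouquet e t) = 0
      rw [rho_edge, if_neg (Ne.symm hi)]

/-- The sum of the `i`-th coordinates of the two particles. -/
noncomputable def sig (i : Fin 3) : BB → AddCircle (1 : ℝ) :=
  Quot.lift (fun x => rho i (x.1 0) + rho i (x.1 1)) (by
    rintro x y ⟨σ, hσ⟩
    have h : ∑ k, rho i (x.1 k) = ∑ k, rho i (y.1 k) := by
      rw [hσ]
      exact (Equiv.sum_comp σ (fun k => rho i (x.1 k))).symm
    simpa [Fin.sum_univ_two] using h)

theorem continuous_sig (i : Fin 3) : Continuous (sig i) := by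
  apply continuous_quot_lift
  exact ((continuous_rho i).comp ((continuous_apply 0).comp continuous_subtype_val)).add
    ((continuous_rho i).comp ((continuous_apply 1).comp continuous_subtype_val))

theorem sig_cases (z : BB) : ∃ i, sig i z = 0 := by
  induction z using Quot.ind with
  | mk z =>
    obtain ⟨j, hj⟩ := rho_cases (z.1 0)
    obtain ⟨k, hk⟩ := rho_cases (z.1 1)
    obtain ⟨i, hij, hik⟩ : ∃ i : Fin 3, i ≠ j ∧ i ≠ k := by
      have hd : ∀ j k : Fin 3, ∃ i : Fin 3, i ≠ j ∧ i ≠ k := by decide
      exact hd j k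
    refine ⟨i, ?_⟩
    change rho i (z.1 0) + rho i (z.1 1) = 0
    rw [hj i hij, hk i hik, add_zero]

theorem edge_zero (e : Fin 3) : edge bouquet e 0 = vertex bouquet (0 : Fin 1) := Quot.sound (Glue.src (G := bouquet) e)

theorem edge_one (e : Fin 3) : edge bouquet e 1 = vertex bouquet (0 : Fin 1) := Quot.sound (Glue.tgt (G := bouquet) e)

theorem eq_vertex_of_edge_eq {j k : Fin 3} (hjk : j ≠ k) {s t : unitInterval}
    (h : edge bouquet j s = edge bouquet k t) : edge bouquet j s = vertex bouquet (0 : Fin 1) := by
  have h1 : rho j (edge bouquet j s) = 0 := by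
    rw [h, rho_edge, if_neg (Ne.symm hjk)]
  rw [rho_edge, if_pos rfl] at h1
  rw [AddCircle.coe_eq_zero_iff] at h1
  obtain ⟨n, hn⟩ := h1
  have hs0 := s.2.1
  have hs1 := s.2.2
  have hn' : (n : ℝ) = s := by simpa using hn
  have : n = 0 ∨ n = 1 := by
    have h0 : (0 : ℝ) ≤ n := by rw [hn']; exact hs0
    have h1 : (n : ℝ) ≤ 1 := by rw [hn']; exact hs1
    have h0' : 0 ≤ n := by exact_mod_cast h0
    have h1' : n ≤ 1 := by exact_mod_cast h1
    omega
  rcases this with h0 | h0
  · have : s = 0 := by
      apply Subtype.ext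
      rw [← hn', h0]
      simp
    rw [this]; exact edge_zero j
  · have : s = 1 := by
      apply Subtype.ext
      rw [← hn', h0]
      simp
    rw [this]; exact edge_one j

/-- Two particles on different loops. -/
def two (j k : Fin 3) (hjk : j ≠ k) (s t : unitInterval) : F bouquet Set.univ 2 :=
  ⟨![edge bouquet j s, edge bouquet k t], by
    intro a b hab h
    refine ⟨(0 : Fin 1), trivial, ?_⟩
    fin_cases a <;> fin_cases b
    · exact absurd rfl hab
    · exact eq_vertex_of_edge_eq hjk h
    · exact eq_vertex_of_edge_eq hjk.symm h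
    · exact absurd rfl hab⟩

theorem continuous_edge (e : Fin 3) : Continuous (edge bouquet e) :=
  continuous_quot_mk.comp (continuous_inr.comp (by fun_prop))

/-- The unordered configuration. -/
def pr (j k : Fin 3) (hjk : j ≠ k) (s t : unitInterval) : BB := Quot.mk _ (two j k hjk s t)

theorem continuous_pr (j k : Fin 3) (hjk : j ≠ k) :
    Continuous (fun p : unitInterval × unitInterval => pr j k hjk p.1 p.2) := by
  apply continuous_quot_mk.comp
  apply Continuous.subtype_mk
  apply continuous_pi
  intro a
  fin_cases a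
  · exact (continuous_edge j).comp continuous_fst
  · exact (continuous_edge k).comp continuous_snd

theorem pr_symm (j k : Fin 3) (hjk : j ≠ k) (s t : unitInterval) :
    pr j k hjk s t = pr k j hjk.symm t s := by
  apply Quot.sound
  refine ⟨Equiv.swap 0 1, ?_⟩
  funext a
  fin_cases a <;> simp [two]

theorem pr_congr {j k l : Fin 3} (hjk : j ≠ k) (hjl : j ≠ l) (s t t' : unitInterval)
    (h : edge bouquet k t = edge bouquet l t') : pr j k hjk s t = pr j l hjl s t' := by
  unfold pr
  congr 1
  apply Subtype.ext
  simp [two, h]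

theorem sig_pr (i j k : Fin 3) (hjk : j ≠ k) (s t : unitInterval) :
    sig i (pr j k hjk s t) = (if j = i then ((s : ℝ) : AddCircle (1 : ℝ)) else 0) +
      (if k = i then ((t : ℝ) : AddCircle (1 : ℝ)) else 0) := rfl

/-- The endpoints. -/
def End (t : unitInterval) : Prop := t = 0 ∨ t = 1

theorem edge_end {t : unitInterval} (h : End t) (e : Fin 3) :
    edge bouquet e t = vertex bouquet (0 : Fin 1) := by
  rcases h with rfl | rfl
  · exact edge_zero e
  · exact edge_one e

open Classical in
/-- The map from the boundary of the cube. -/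
noncomputable def bd (p : Fin 3 → unitInterval) : BB :=
  if End (p 0) then pr 1 2 (by decide) (p 1) (p 2)
  else if End (p 1) then pr 0 2 (by decide) (p 0) (p 2)
  else pr 0 1 (by decide) (p 0) (p 1)

theorem bd_0 {p : Fin 3 → unitInterval} (h : End (p 0)) :
    bd p = pr 1 2 (by decide) (p 1) (p 2) := by rw [bd, if_pos h]

theorem bd_1 {p : Fin 3 → unitInterval} (h : End (p 1)) :
    bd p = pr 0 2 (by decide) (p 0) (p 2) := by
  by_cases h0 : End (p 0)
  · rw [bd_0 h0, pr_symm 1 2, pr_symm 0 2]
    apply pr_congr
    rw [edge_end h, edge_end h0]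
  · rw [bd, if_neg h0, if_pos h]

theorem bd_2 {p : Fin 3 → unitInterval} (h : End (p 2)) :
    bd p = pr 0 1 (by decide) (p 0) (p 1) := by
  by_cases h0 : End (p 0)
  · rw [bd_0 h0, pr_symm 0 1]
    apply pr_congr
    rw [edge_end h, edge_end h0]
  · by_cases h1 : End (p 1)
    · rw [bd_1 h1]
      apply pr_congr
      rw [edge_end h, edge_end h1]
    · rw [bd, if_neg h0, if_neg h1]

/-- The boundary of the cube. -/
def bdry : Set (Fin 3 → unitInterval) := {p | End (p 0) ∨ End (p 1) ∨ End (p 2)}

theorem isClosed_End (i : Fin 3) : IsClosed {p : Fin 3 → unitInterval | End (p i)} := by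
  have : {p : Fin 3 → unitInterval | End (p i)} =
      {p | p i = 0} ∪ {p | p i = 1} := rfl
  rw [this]
  exact (isClosed_eq (continuous_apply i) continuous_const).union
    (isClosed_eq (continuous_apply i) continuous_const)

theorem continuousOn_bd : ContinuousOn bd bdry := by
  have h0 : ContinuousOn bd {p | End (p 0)} := by
    apply ContinuousOn.congr (f := fun p => pr 1 2 (by decide) (p 1) (p 2))
    · have h : Continuous (fun p : Fin 3 → unitInterval => (p 1, p 2)) := by fun_prop
      exact ((continuous_pr 1 2 (by decide)).comp h).continuousOn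
    · intro p hp
      exact bd_0 hp
  have h1 : ContinuousOn bd {p | End (p 1)} := by
    apply ContinuousOn.congr (f := fun p => pr 0 2 (by decide) (p 0) (p 2))
    · have h : Continuous (fun p : Fin 3 → unitInterval => (p 0, p 2)) := by fun_prop
      exact ((continuous_pr 0 2 (by decide)).comp h).continuousOn
    · intro p hp
      exact bd_1 hp
  have h2 : ContinuousOn bd {p | End (p 2)} := by
    apply ContinuousOn.congr (f := fun p => pr 0 1 (by decide) (p 0) (p 1))
    · have h : Continuous (fun p : Fin 3 → unitInterval => (p 0, p 1)) := by fun_prop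
      exact ((continuous_pr 0 1 (by decide)).comp h).continuousOn
    · intro p hp
      exact bd_2 hp
  exact h0.union_of_isClosed (h1.union_of_isClosed h2 (isClosed_End 1) (isClosed_End 2))
    (isClosed_End 0) ((isClosed_End 1).union (isClosed_End 2))

theorem sig_bd {p : Fin 3 → unitInterval} (hp : p ∈ bdry) (i : Fin 3) :
    sig i (bd p) = ((p i : ℝ) : AddCircle (1 : ℝ)) := by
  have hend : ∀ j, End (p j) → ((p j : ℝ) : AddCircle (1 : ℝ)) = 0 := by
    intro j hj
    rcases hj with h | h
    · rw [h]; simp
    · rw [h]; simpa using AddCircle.coe_period (1 : ℝ)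
  rcases hp with h | h | h
  · rw [bd_0 h, sig_pr]
    fin_cases i
    · simp [hend 0 h]
    · simp
    · simp
  · rw [bd_1 h, sig_pr]
    fin_cases i
    · simp
    · simp [hend 1 h]
    · simp
  · rw [bd_2 h, sig_pr]
    fin_cases i
    · simp
    · simp
    · simp [hend 2 h]

end Pool.Agent.Q136.Sinks
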