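import Pool.Agent.Q136.Sinks
import Pool.Agent.Helper31.GZ.Brouwer

namespace Pool.Agent.Q136.Sinks

open Topology unitInterval

/-- Projection to the unit interval. -/
noncomputable def cl (x : ℝ) : unitInterval := Set.projIcc 0 1 zero_le_one x

theorem continuous_cl : Continuous cl := continuous_projIcc (h := zero_le_one)

theorem cl_val (x : ℝ) : (cl x : ℝ) = max 0 (min 1 x) := by
  rw [cl, Set.coe_projIcc]

theorem cl_of_le {x : ℝ} (h : x ≤ 0) : cl x = 0 := by
  apply Subtype.ext
  rw [cl_val]
  simp only [Set.Icc.coe_zero]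
  rw [min_eq_right (by linarith), max_eq_left h]

theorem cl_of_ge {x : ℝ} (h : 1 ≤ x) : cl x = 1 := by
  apply Subtype.ext
  rw [cl_val]
  simp only [Set.Icc.coe_one]
  rw [min_eq_left h, max_eq_right zero_le_one]

/-- The distance of a point of the square to its centre. -/
noncomputable def rad (a : Fin 2 → unitInterval) : ℝ :=
  max |(a 0 : ℝ) - 1 / 2| |(a 1 : ℝ) - 1 / 2|

theorem continuous_rad : Continuous rad := by
  unfold rad
  fun_prop

theorem rad_nonneg (a : Fin 2 → unitInterval) : 0 ≤ rad a :=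
  (abs_nonneg _).trans (le_max_left _ _)

theorem rad_le (a : Fin 2 → unitInterval) : rad a ≤ 1 / 2 := by
  apply max_le
  · rw [abs_le]
    have := (a 0).2.1
    have := (a 0).2.2
    constructor <;> linarith
  · rw [abs_le]
    have := (a 1).2.1
    have := (a 1).2.2
    constructor <;> linarith

/-- The map from the square to the boundary of the cube. -/
noncomputable def qq (a : Fin 2 → unitInterval) : Fin 3 → unitInterval :=
  ![cl (1 / 2 + 16 * (1 / 2 - rad a) * ((a 0 : ℝ) - 1 / 2)),
    cl (1 / 2 + 16 * (1 / 2 - rad a) * ((a 1 : ℝ) - 1 / 2)),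
    cl (64 * rad a - 31 / 2)]

theorem continuous_qq : Continuous qq := by
  have h := continuous_rad
  have h2 := continuous_cl
  apply continuous_pi
  intro i
  fin_cases i
  · change Continuous (fun a => cl (1 / 2 + 16 * (1 / 2 - rad a) * ((a 0 : ℝ) - 1 / 2)))
    fun_prop
  · change Continuous (fun a => cl (1 / 2 + 16 * (1 / 2 - rad a) * ((a 1 : ℝ) - 1 / 2)))
    fun_prop
  · change Continuous (fun a => cl (64 * rad a - 31 / 2))
    fun_prop

theorem qq_mem (a : Fin 2 → unitInterval) : qq a ∈ bdry := by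
  by_cases h1 : 33 / 128 ≤ rad a
  · right; right; right
    exact cl_of_ge (by linarith)
  · by_cases h2 : rad a ≤ 31 / 128
    · right; right; left
      exact cl_of_le (by linarith)
    · push Not at h1 h2
      have key : ∀ t : ℝ, |t| = rad a →
          End (cl (1 / 2 + 16 * (1 / 2 - rad a) * t)) := by
        intro t ht
        rcases le_or_gt 0 t with h0 | h0
        · right
          rw [abs_of_nonneg h0] at ht
          apply cl_of_ge
          rw [ht]
          nlinarith
        · left
          rw [abs_of_neg h0] at ht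
          apply cl_of_le
          have : t = - rad a := by linarith
          rw [this]
          nlinarith
      rcases max_choice |(a 0 : ℝ) - 1 / 2| |(a 1 : ℝ) - 1 / 2| with h | h
      · left
        exact key _ h.symm
      · right; left
        exact key _ h.symm

/-- The base point of the boundary of the cube. -/
noncomputable def v0 : Fin 3 → unitInterval := ![cl (1 / 2), cl (1 / 2), 1]

theorem qq_boundary {a : Fin 2 → unitInterval} (ha : a ∈ Cube.boundary (Fin 2)) :
    qq a = v0 := by
  obtain ⟨i, hi⟩ := ha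
  have hr : rad a = 1 / 2 := by
    apply le_antisymm (rad_le a)
    have h1 : |(a i : ℝ) - 1 / 2| = 1 / 2 := by
      rcases hi with h | h
      · rw [h]; norm_num
      · rw [h]; norm_num
    fin_cases i
    · exact h1.symm.le.trans (le_max_left _ _)
    · exact h1.symm.le.trans (le_max_right _ _)
  unfold qq v0
  rw [hr]
  congr 1
  · congr 1; ring
  · congr 1
    · congr 1; ring
    · congr 1
      exact cl_of_ge (by norm_num)

/-- The loop in `B_2`. -/
noncomputable def loop : GenLoop (Fin 2) BB (bd v0) :=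
  ⟨⟨fun a => bd (qq a), continuousOn_bd.comp_continuous continuous_qq qq_mem⟩, by
    intro a ha
    change bd (qq a) = bd v0
    rw [qq_boundary ha]⟩

theorem v0_mem : v0 ∈ bdry := by
  right; right; right; rfl

/-- The lifting step. -/
theorem lift (F : ContinuousMap.HomotopyRel loop.1 (GenLoop.const (x := bd v0)).1
      (Cube.boundary (Fin 2))) (i : Fin 3) :
    ∃ G : C(unitInterval × (Fin 2 → unitInterval), ℝ),
      (∀ x, ((G x : ℝ) : AddCircle (1 : ℝ)) = sig i (F x)) ∧
      (∀ a, G (0, a) = (qq a i : ℝ)) ∧ (∀ a, G (1, a) = (v0 i : ℝ)) ∧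
      (∀ t, ∀ a ∈ Cube.boundary (Fin 2), G (t, a) = (v0 i : ℝ)) := by
  let cov : IsCoveringMap ((↑) : ℝ → AddCircle (1 : ℝ)) := AddCircle.isCoveringMap_coe 1
  let sc : C(BB, AddCircle (1 : ℝ)) := ⟨sig i, continuous_sig i⟩
  let F' := F.compContinuousMap sc
  let f0 : C(Fin 2 → unitInterval, ℝ) := ⟨fun a => (qq a i : ℝ),
    continuous_subtype_val.comp ((continuous_apply i).comp continuous_qq)⟩
  let f1 : C(Fin 2 → unitInterval, ℝ) := ContinuousMap.const _ (v0 i : ℝ)
  have h0 : ((↑) : ℝ → AddCircle (1 : ℝ)) ∘ f0 = sc.comp loop.1 := by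
    funext a
    exact (sig_bd (qq_mem a) i).symm
  have h1 : ((↑) : ℝ → AddCircle (1 : ℝ)) ∘ f1 = sc.comp (GenLoop.const (x := bd v0)).1 := by
    funext a
    exact (sig_bd v0_mem i).symm
  have hb : (fun _ => 0 : Fin 2 → unitInterval) ∈ Cube.boundary (Fin 2) := ⟨0, Or.inl rfl⟩
  have he : ∃ a ∈ Cube.boundary (Fin 2), f0 a = f1 a := by
    refine ⟨_, hb, ?_⟩
    change ((qq _ i : unitInterval) : ℝ) = (v0 i : ℝ)
    rw [qq_boundary hb]
  let R := cov.liftHomotopyRel F' he h0 h1
  refine ⟨R.toContinuousMap, ?_, ?_, ?_, ?_⟩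
  · intro x
    exact congrFun (cov.liftHomotopy_lifts F'.toContinuousMap f0
      (fun a => (F'.apply_zero a).trans (congrFun h0 a).symm)) x
  · intro a
    exact R.apply_zero a
  · intro a
    exact R.apply_one a
  · intro t a ha
    have := R.eq_fst t ha
    rw [← qq_boundary ha]
    exact this

theorem sign_zero {x y lam : ℝ} (h : x = -(lam * y)) (hl : 0 < lam) (hs : 0 ≤ x * y) :
    x = 0 := by
  have h1 : x * x = -(lam * (x * y)) := by
    calc x * x = x * (-(lam * y)) := by rw [← h]
      _ = -(lam * (x * y)) := by ring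
  have h2 := mul_nonneg hl.le hs
  nlinarith

theorem loop_not_homotopic : ¬ GenLoop.Homotopic loop (GenLoop.const (x := bd v0)) := by
  rintro ⟨F⟩
  choose G hG h0 h1 hb using lift F
  -- the lift avoids the centre
  have hne : ∀ x, ∃ i, G i x ≠ 1 / 2 := by
    intro x
    obtain ⟨i, hi⟩ := sig_cases (F x)
    refine ⟨i, fun hc => ?_⟩
    have h2 := hG i x
    rw [hi, hc, AddCircle.coe_eq_zero_iff] at h2
    obtain ⟨n, hn⟩ := h2
    have : (n : ℝ) * 2 = 1 := by
      simp at hn
      linarith
    have h3 : n * 2 = 1 := by exact_mod_cast this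
    omega
  -- the associated vector field
  let w : (Fin 3 → ℝ) → (Fin 3 → ℝ) := fun v i =>
    G i (cl (v 2), ![cl (v 0), cl (v 1)]) - 1 / 2
  have hw : Continuous w := by
    apply continuous_pi
    intro i
    have h3 := continuous_cl
    have h4 : Continuous (fun v : Fin 3 → ℝ =>
        ((cl (v 2), ![cl (v 0), cl (v 1)]) : unitInterval × (Fin 2 → unitInterval))) := by
      apply Continuous.prodMk
      · fun_prop
      · apply continuous_pi
        intro j
        fin_cases j
        · exact h3.comp (continuous_apply 0)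
        · exact h3.comp (continuous_apply 1)
    exact ((G i).continuous.comp h4).sub continuous_const
  have hw0 : ∀ v, w v ≠ 0 := by
    intro v hv
    obtain ⟨i, hi⟩ := hne (cl (v 2), ![cl (v 0), cl (v 1)])
    apply hi
    have := congrFun hv i
    simp only [w, Pi.zero_apply] at this
    linarith
  have hwn : ∀ v, 0 < ‖w v‖ := fun v => norm_pos_iff.mpr (hw0 v)
  let f : (Fin 3 → ℝ) → (Fin 3 → ℝ) := fun v => (fun _ => 1 / 2) - (2 * ‖w v‖)⁻¹ • w v
  have hf : Continuous f := by
    apply continuous_const.sub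
    refine Continuous.smul (f := fun v => (2 * ‖w v‖)⁻¹) ?_ hw
    apply Continuous.inv₀
    · exact continuous_const.mul hw.norm
    · intro v
      have := hwn v
      positivity
  have hbound : ∀ v, ‖(2 * ‖w v‖)⁻¹ • w v‖ = 1 / 2 := by
    intro v
    have := hwn v
    rw [norm_smul, norm_inv, norm_mul, norm_norm]
    simp
    field_simp
  obtain ⟨v, hv⟩ := Pool.Agent.Helper31.GZ.Brouwer.brouwer f hf (‖(fun _ => 1 / 2 : Fin 3 → ℝ)‖ + 1 / 2)
    (fun v => (norm_sub_le _ _).trans (by rw [hbound v]))
  have hlam : 0 < (2 * ‖w v‖)⁻¹ := by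
    have := hwn v
    positivity
  set lam := (2 * ‖w v‖)⁻¹ with hlamdef
  have hvi : ∀ i, v i - 1 / 2 = - (lam * w v i) := by
    intro i
    have h5 : v i = 1 / 2 - lam * w v i := (congrFun hv i).symm
    linarith
  have hnorm : ‖lam • w v‖ = 1 / 2 := hbound v
  have habs : ∀ i, |v i - 1 / 2| ≤ 1 / 2 := by
    intro i
    rw [hvi i, abs_neg, ← hnorm]
    exact norm_le_pi_norm (lam • w v) i
  obtain ⟨j, hj⟩ : ∃ j, |v j - 1 / 2| = 1 / 2 := by
    by_contra hc
    push Not at hc
    have h6 : ‖lam • w v‖ < 1 / 2 := by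
      rw [pi_norm_lt_iff (by norm_num)]
      intro i
      have h7 : |v i - 1 / 2| < 1 / 2 := lt_of_le_of_ne (habs i) (hc i)
      rw [hvi i, abs_neg] at h7
      exact h7
    linarith
  have hin : ∀ i, 0 ≤ v i ∧ v i ≤ 1 := by
    intro i
    have := abs_le.mp (habs i)
    constructor <;> linarith
  have hcl : ∀ i, (cl (v i) : ℝ) = v i := by
    intro i
    rw [cl_val, min_eq_right (hin i).2, max_eq_right (hin i).1]
  have hend : v j = 0 ∨ v j = 1 := by
    rcases abs_eq (by norm_num : (0 : ℝ) ≤ 1 / 2) |>.mp hj with h | h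
    · right; linarith
    · left; linarith
  have hv02 : (v0 2 : ℝ) = 1 := rfl
  have hv00 : (v0 0 : ℝ) = 1 / 2 := by
    change ((cl (1 / 2) : unitInterval) : ℝ) = 1 / 2
    rw [cl_val]; norm_num
  have hv01 : (v0 1 : ℝ) = 1 / 2 := by
    change ((cl (1 / 2) : unitInterval) : ℝ) = 1 / 2
    rw [cl_val]; norm_num
  -- if `w v` is the base vector
  have hbase : (∀ i, w v i = (v0 i : ℝ) - 1 / 2) →
      v 0 = 1 / 2 ∧ v 1 = 1 / 2 ∧ v 2 < 1 / 2 := by
    intro h
    have e0 := hvi 0
    have e1 := hvi 1
    have e2 := hvi 2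
    rw [h, hv00] at e0
    rw [h, hv01] at e1
    rw [h, hv02] at e2
    refine ⟨by linarith, by linarith, by nlinarith⟩
  have hside : ∀ k : Fin 2, (![cl (v 0), cl (v 1)] k = 0 ∨ ![cl (v 0), cl (v 1)] k = 1) →
      (∀ i, w v i = (v0 i : ℝ) - 1 / 2) := by
    intro k hk i
    have := hb i (cl (v 2)) ![cl (v 0), cl (v 1)] ⟨k, hk⟩
    simp only [w, this]
  have c01 : ∀ i, (v i = 0 → cl (v i) = 0) ∧ (v i = 1 → cl (v i) = 1) := by
    intro i
    constructor
    · intro h; exact cl_of_le h.le
    · intro h; exact cl_of_ge h.ge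
  have hd : ∀ j : Fin 3, j = 0 ∨ j = 1 ∨ j = 2 := by decide
  obtain hj' | hj' | hj' : j = 0 ∨ j = 1 ∨ j = 2 := hd j
  · rw [hj'] at hend
    have := hbase (hside 0 (by
      rcases hend with h | h
      · left; exact (c01 0).1 h
      · right; exact (c01 0).2 h))
    rcases hend with h | h <;> linarith [this.1]
  · rw [hj'] at hend
    have := hbase (hside 1 (by
      rcases hend with h | h
      · left; exact (c01 1).1 h
      · right; exact (c01 1).2 h))
    rcases hend with h | h <;> linarith [this.2.1]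
  · rw [hj'] at hend
    rcases hend with h | h
    · -- the bottom face
      have hw' : ∀ i, w v i = (qq ![cl (v 0), cl (v 1)] i : ℝ) - 1 / 2 := by
        intro i
        simp only [w]
        rw [(c01 2).1 h, h0]
      set a : Fin 2 → unitInterval := ![cl (v 0), cl (v 1)] with ha
      have ha0 : (a 0 : ℝ) = v 0 := hcl 0
      have ha1 : (a 1 : ℝ) = v 1 := hcl 1
      have hr1 := rad_le a
      have hr0 := rad_nonneg a
      -- sign argument
      have hsign : ∀ t : ℝ, 0 ≤ t * ((cl (1 / 2 + 16 * (1 / 2 - rad a) * t) : ℝ) - 1 / 2) := by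
        intro t
        rw [cl_val]
        rcases le_or_gt 0 t with h0 | h0
        · apply mul_nonneg h0
          have : 1 / 2 ≤ 1 / 2 + 16 * (1 / 2 - rad a) * t := by nlinarith [mul_nonneg (by linarith : 0 ≤ 1 / 2 - rad a) h0]
          have h8 : 1 / 2 ≤ max 0 (min 1 (1 / 2 + 16 * (1 / 2 - rad a) * t)) :=
            le_max_of_le_right (le_min (by norm_num) this)
          linarith
        · apply mul_nonneg_of_nonpos_of_nonpos h0.le
          have : 1 / 2 + 16 * (1 / 2 - rad a) * t ≤ 1 / 2 := by
            nlinarith [mul_nonneg (by linarith : 0 ≤ 1 / 2 - rad a) (neg_nonneg.mpr h0.le)]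
          have h8 : max 0 (min 1 (1 / 2 + 16 * (1 / 2 - rad a) * t)) ≤ 1 / 2 :=
            max_le (by norm_num) ((min_le_right _ _).trans this)
          linarith
      have s0 := hsign (v 0 - 1 / 2)
      have s1 := hsign (v 1 - 1 / 2)
      have q0 : (qq a 0 : ℝ) = cl (1 / 2 + 16 * (1 / 2 - rad a) * (v 0 - 1 / 2)) := by
        rw [← ha0]; rfl
      have q1 : (qq a 1 : ℝ) = cl (1 / 2 + 16 * (1 / 2 - rad a) * (v 1 - 1 / 2)) := by
        rw [← ha1]; rfl
      have e0 := hvi 0
      have e1 := hvi 1
      have e2 := hvi 2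
      rw [hw', q0] at e0
      rw [hw', q1] at e1
      rw [hw', h] at e2
      have z0 : v 0 - 1 / 2 = 0 := sign_zero e0 hlam s0
      have z1 : v 1 - 1 / 2 = 0 := sign_zero e1 hlam s1
      have hr : rad a = 0 := by
        rw [rad, ha0, ha1, z0, z1]
        simp
      have q2 : qq a 2 = 0 := by
        change cl (64 * rad a - 31 / 2) = 0
        rw [hr]
        exact cl_of_le (by norm_num)
      rw [q2] at e2
      simp at e2
      nlinarith
    · have hw' : ∀ i, w v i = (v0 i : ℝ) - 1 / 2 := by
        intro i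
        simp only [w]
        rw [(c01 2).2 h, h1]
      have := hbase hw'
      linarith [this.2.2]

theorem pi2_nontrivial : ∃ b : BB, ¬ Subsingleton (HomotopyGroup.Pi 2 BB b) := by
  refine ⟨bd v0, fun hs => loop_not_homotopic ?_⟩
  have h := @Subsingleton.elim _ hs (Quotient.mk _ loop) (Quotient.mk _ GenLoop.const)
  exact Quotient.exact h

end Pool.Agent.Q136.Sinks
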